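import Pool.Agent.TH164.One.Grow

/-!
# Skew operators of rank two whose square is not zero
-/

set_option autoImplicit false

open Module Finset

namespace Pool.Agent.TH164.One

section elt

variable {k : Type*} [Field k] {V : Type*} [AddCommGroup V] [Module k V]
variable {B : V →ₗ[k] V →ₗ[k] k} {L 𝔞 : Submodule k (Module.End k V)}

/-- a skew operator with values in the span of `e` and `f` -/
theorem skew_eq [CharZero k] (hs : ∀ v w, B v w = B w v) {N : Module.End k V}
    (hN : ∀ v w, B (N v) w + B v (N w) = 0) {e f e' f' : V}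
    (hr : ∀ v, ∃ a b : k, N v = a • e + b • f)
    (h1 : B e e' = 1) (h2 : B f e' = 0) (h3 : B e f' = 0) (h4 : B f f' = 1) :
    ∃ c : k, N = c • S B e f := by
  choose α β hαβ using hr
  have hN0 : ∀ v, B (N v) v = 0 := by
    intro v
    have h := hN v v
    rw [hs v (N v), ← two_mul] at h
    exact (mul_eq_zero.1 h).resolve_left two_ne_zero
  have ha : ∀ v, B (N v) e' = α v := by
    intro v
    rw [hαβ v]
    simp [h1, h2]
  have hb : ∀ v, B (N v) f' = β v := by
    intro v
    rw [hαβ v]
    simp [h3, h4]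
  have hae : α e' = 0 := by rw [← ha, hN0]
  have hbf : β f' = 0 := by rw [← hb, hN0]
  have haf : α f' = -β e' := by
    have h := hN f' e'
    rw [ha, hs f' (N e'), hb] at h
    exact eq_neg_of_add_eq_zero_left h
  refine ⟨β e', LinearMap.ext fun v => ?_⟩
  have hav : α v = -(β e') * B f v := by
    have h := hN v e'
    rw [ha, hαβ e', hae, zero_smul, zero_add, map_smul, smul_eq_mul, hs v f] at h
    linear_combination h
  have hbv : β v = β e' * B e v := by
    have h := hN v f'
    rw [hb, hαβ f', hbf, zero_smul, add_zero, map_smul, smul_eq_mul, hs v e, haf] at h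
    linear_combination h
  rw [hαβ v, LinearMap.smul_apply, S_apply, hav, hbv]
  module

variable [IsAlgClosed k] [CharZero k] [FiniteDimensional k V]

/-- **Elements of rank two.** A skew operator of rank two whose square is not zero gives a triple. -/
theorem Dat.exists_tri_of_rank (hD : Dat B L 𝔞) {N : Module.End k V} (hN : N ∈ 𝔞)
    (hr : finrank k (LinearMap.range N) = 2) (h2 : N * N ≠ 0) : ∃ e w u, Tri B 𝔞 e w u := by
  have hNL := hD.le hN
  have hs := hD.symm
  have hsk := hD.skew N hNL
  have hNz : ∀ v, B v (N v) = 0 := hD.self_zero hNL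
  -- the kernel is orthogonal to the range
  have hker : ∀ w, (∀ p ∈ LinearMap.range N, B p w = 0) → N w = 0 := by
    intro w hw
    apply hD.nondeg
    intro v
    rw [hs, hD.skew' hNL, hw _ (LinearMap.mem_range_self N v), neg_zero]
  have hker' : ∀ w, N w = 0 → ∀ p ∈ LinearMap.range N, B p w = 0 := by
    rintro w hw _ ⟨v, rfl⟩
    have h := hsk v w
    rwa [hw, map_zero, add_zero] at h
  -- an eigenvector
  have hst : ∀ p ∈ LinearMap.range N, N p ∈ LinearMap.range N := fun p _ =>
    LinearMap.mem_range_self N p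
  have : Nontrivial (LinearMap.range N) := by
    apply Module.nontrivial_of_finrank_pos (R := k)
    rw [hr]
    norm_num
  obtain ⟨μ, hμ⟩ := Module.End.exists_eigenvalue (N.restrict hst)
  obtain ⟨⟨e, heP⟩, he⟩ := hμ.exists_hasEigenvector
  have he0 : e ≠ 0 := by
    intro h
    exact he.2 (Subtype.ext h)
  have heμ : N e = μ • e := by
    have h := he.apply_eq_smul
    exact congrArg (fun z : LinearMap.range N => (z : V)) h
  have hee : B e e = 0 := by
    by_cases h : μ = 0
    · rw [h, zero_smul] at heμ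
      exact hker' e heμ e heP
    · have h1 := hNz e
      rw [heμ, map_smul, smul_eq_mul] at h1
      exact (mul_eq_zero.1 h1).resolve_left h
  -- a second vector in the range
  have hspan : ∀ f ∈ LinearMap.range N, f ∉ Submodule.span k {e} →
      ∀ v, ∃ a b : k, N v = a • e + b • f := by
    intro f hf hfe v
    have hli : LinearIndependent k ![(⟨e, heP⟩ : LinearMap.range N), ⟨f, hf⟩] := by
      rw [LinearIndependent.pair_iff]
      intro s t hst
      have h1 : s • e + t • f = 0 := congrArg (fun z : LinearMap.range N => (z : V)) hst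
      have ht : t = 0 := by
        by_contra ht
        apply hfe
        rw [Submodule.mem_span_singleton]
        refine ⟨-(t⁻¹ * s), ?_⟩
        have h2 : f = t⁻¹ • (t • f) := by rw [smul_smul, inv_mul_cancel₀ ht, one_smul]
        rw [h2, eq_neg_of_add_eq_zero_right h1]
        module
      refine ⟨?_, ht⟩
      rw [ht, zero_smul, add_zero] at h1
      exact (smul_eq_zero.1 h1).resolve_right he0
    have htop := hli.span_eq_top_of_card_eq_finrank' (by rw [hr]; simp)
    have hmem : (⟨N v, LinearMap.mem_range_self N v⟩ : LinearMap.range N) ∈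
        Submodule.span k (Set.range ![(⟨e, heP⟩ : LinearMap.range N), ⟨f, hf⟩]) := by
      rw [htop]
      exact Submodule.mem_top
    rw [Matrix.range_cons, Matrix.range_cons, Matrix.range_empty, Set.union_empty,
      Set.singleton_union, Submodule.mem_span_pair] at hmem
    obtain ⟨a, b, hab⟩ := hmem
    exact ⟨a, b, (congrArg (fun z : LinearMap.range N => (z : V)) hab).symm⟩
  by_cases hp : ∃ p ∈ LinearMap.range N, B e p ≠ 0
  · -- a hyperbolic plane
    obtain ⟨p, hp, hep⟩ := hp
    obtain ⟨p', hp'⟩ : ∃ p', p' = (B e p)⁻¹ • p := ⟨_, rfl⟩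
    have hep' : B e p' = 1 := by rw [hp', map_smul, smul_eq_mul, inv_mul_cancel₀ hep]
    have hpP' : p' ∈ LinearMap.range N := by rw [hp']; exact Submodule.smul_mem _ _ hp
    have hpe' : B p' e = 1 := by rw [hs, hep']
    obtain ⟨w, hw⟩ : ∃ w, w = p' - (B p' p' / 2) • e := ⟨_, rfl⟩
    have hwP : w ∈ LinearMap.range N := by
      rw [hw]
      exact Submodule.sub_mem _ hpP' (Submodule.smul_mem _ _ heP)
    have hyp : Hyp B e w := by
      refine ⟨?_, hee, ?_⟩
      · rw [hw, map_sub, map_smul, hee, smul_zero, sub_zero, hep']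
      · rw [hw]
        simp only [map_sub, map_smul, LinearMap.sub_apply, LinearMap.smul_apply, smul_eq_mul,
          hep', hpe', hee]
        ring
    have hwe := hD.we hyp
    have hwn : w ∉ Submodule.span k {e} := by
      rw [Submodule.mem_span_singleton]
      rintro ⟨a, ha⟩
      have h := hyp.ew
      rw [← ha, map_smul, hee, smul_zero] at h
      exact zero_ne_one h
    obtain ⟨c, hc⟩ := skew_eq hs hsk (hspan w hwP hwn) hyp.ew hyp.ww hyp.ee hwe
    have hc0 : c ≠ 0 := by
      rintro rfl
      apply h2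
      rw [hc, zero_smul, mul_zero]
    have hew : S B e w ∈ 𝔞 := by
      have h := 𝔞.smul_mem c⁻¹ hN
      rwa [hc, smul_smul, inv_mul_cancel₀ hc0, one_smul] at h
    obtain ⟨v, hv, hv'⟩ := hD.exists_nil hyp hew
    obtain ⟨w', u, hT⟩ := hD.exists_tri hv hv'
    exact ⟨w, w', u, hT⟩
  · -- a degenerate plane
    push Not at hp
    obtain ⟨f, hfP, hfn⟩ : ∃ f ∈ LinearMap.range N, f ∉ Submodule.span k {e} := by
      by_contra hcon
      push Not at hcon
      have h3 : finrank k (LinearMap.range N) ≤ finrank k (Submodule.span k {e}) :=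
        Submodule.finrank_mono hcon
      rw [hr, finrank_span_singleton he0] at h3
      omega
    have hNv := hspan f hfP hfn
    have hfe : B e f = 0 := hp f hfP
    have hfe' : B f e = 0 := by rw [hs, hfe]
    have hff : B f f ≠ 0 := by
      intro hff
      apply h2
      refine LinearMap.ext fun v => ?_
      rw [Module.End.mul_apply, LinearMap.zero_apply]
      apply hker
      rintro _ ⟨v', rfl⟩
      obtain ⟨a, b, h3⟩ := hNv v
      obtain ⟨a', b', h3'⟩ := hNv v'
      rw [h3, h3']
      simp [hee, hfe, hfe', hff]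
    obtain ⟨e0, he0'⟩ : ∃ e0, B e e0 ≠ 0 := by
      by_contra hcon
      push Not at hcon
      exact he0 (hD.nondeg e hcon)
    obtain ⟨e1, he1⟩ : ∃ e1, e1 = (B e e0)⁻¹ • e0 := ⟨_, rfl⟩
    have hee1 : B e e1 = 1 := by rw [he1, map_smul, smul_eq_mul, inv_mul_cancel₀ he0']
    obtain ⟨e', he'⟩ : ∃ e', e' = e1 - (B f e1 / B f f) • f := ⟨_, rfl⟩
    have h3 : B e e' = 1 := by rw [he', map_sub, map_smul, hfe, smul_zero, sub_zero, hee1]
    have h4 : B f e' = 0 := by
      rw [he', map_sub, map_smul, smul_eq_mul, div_mul_cancel₀ _ hff, sub_self]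
    obtain ⟨c, hc⟩ := skew_eq (f' := (B f f)⁻¹ • f) hs hsk hNv h3 h4
      (by rw [map_smul, hfe, smul_zero])
      (by rw [map_smul, smul_eq_mul, inv_mul_cancel₀ hff])
    have hc0 : c ≠ 0 := by
      rintro rfl
      apply h2
      rw [hc, zero_smul, mul_zero]
    have hef : S B e f ∈ 𝔞 := by
      have h := 𝔞.smul_mem c⁻¹ hN
      rwa [hc, smul_smul, inv_mul_cancel₀ hc0, one_smul] at h
    obtain ⟨w', u, hT⟩ := hD.exists_tri ⟨he0, hee, hfe, hff⟩ hef
    exact ⟨e, w', u, hT⟩

/-- **All products lie in the ideal.** -/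
theorem Dat.all_of_rank (hD : Dat B L 𝔞) {N : Module.End k V} (hN : N ∈ 𝔞)
    (hr : finrank k (LinearMap.range N) = 2) (h2 : N * N ≠ 0) (v v' : V) : S B v v' ∈ 𝔞 := by
  obtain ⟨e, w, u, hT⟩ := hD.exists_tri_of_rank hN hr h2
  exact all_mem hD hT v v'

end elt

end Pool.Agent.TH164.One
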