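import Pool.Agent.W417.K3.FftA
import Pool.Agent.TH164.One.Elt

/-!
# Multilinear maps which are invariant under all skew operators
-/

set_option autoImplicit false

open Module Finset

namespace Pool.Agent.TH164.One

open Pool.Agent.W417.K3.Fft

section fft

variable {k : Type*} [Field k] {V : Type*} [AddCommGroup V] [Module k V]
variable {r : ℕ}

/-- a pairing of the slots: an involution without fixed points -/
structure Pairs {r : ℕ} (σ : Fin r → Fin r) : Prop where
  inv : ∀ i, σ (σ i) = i
  ne : ∀ i, σ i ≠ i

/-- one factor moves -/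
theorem prod_update_of {W : Type*} (b : W → W → k) {σ : Fin r → Fin r} (hσ : Pairs σ)
    (m : Fin r → W) (i : Fin r) :
    ∃ (w : W) (C : k) (l : Bool), ∀ x : W,
      ∏ j with j < σ j, b (Function.update m i x j) (Function.update m i x (σ j)) =
        (if l then b x w else b w x) * C := by
  rcases lt_or_gt_of_ne (hσ.ne i) with h | h
  · refine ⟨m (σ i), ∏ j ∈ (univ.filter fun j => j < σ j).erase (σ i), b (m j) (m (σ j)), false, ?_⟩
    intro x
    have hmem : σ i ∈ univ.filter fun j => j < σ j := by simp [hσ.inv i, h]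
    rw [← mul_prod_erase _ _ hmem, hσ.inv i, Function.update_self, Function.update_of_ne (hσ.ne i)]
    simp only [Bool.false_eq_true, if_false]
    congr 1
    refine prod_congr rfl fun j hj => ?_
    rw [mem_erase, mem_filter] at hj
    have h1 : j ≠ i := by
      rintro rfl
      exact lt_asymm h hj.2.2
    have h2 : σ j ≠ i := by
      intro h'
      apply hj.1
      rw [← h', hσ.inv]
    rw [Function.update_of_ne h1, Function.update_of_ne h2]
  · refine ⟨m (σ i), ∏ j ∈ (univ.filter fun j => j < σ j).erase i, b (m j) (m (σ j)), true, ?_⟩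
    intro x
    have hmem : i ∈ univ.filter fun j => j < σ j := by simpa using h
    rw [← mul_prod_erase _ _ hmem, Function.update_self, Function.update_of_ne (hσ.ne i)]
    simp only [if_true]
    congr 1
    refine prod_congr rfl fun j hj => ?_
    rw [mem_erase, mem_filter] at hj
    have h2 : σ j ≠ i := by
      intro h'
      have h3 := hσ.inv j
      rw [h'] at h3
      rw [← h3] at hj
      rw [hσ.inv] at hj
      exact lt_asymm h hj.2.2
    rw [Function.update_of_ne hj.1, Function.update_of_ne h2]

/-- the product of the values of the form on the pairs of slots -/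
def pm (B : V →ₗ[k] V →ₗ[k] k) {σ : Fin r → Fin r} (hσ : Pairs σ) :
    MultilinearMap k (fun _ : Fin r => V) k where
  toFun v := ∏ j with j < σ j, B (v j) (v (σ j))
  map_update_add' := by
    intro inst m i x y
    have hinst : inst = instDecidableEqFin r := Subsingleton.elim _ _
    subst hinst
    obtain ⟨w, C, l, h⟩ := prod_update_of (fun u v => B u v) hσ m i
    rw [h, h, h]
    cases l <;> simp [add_mul]
  map_update_smul' := by
    intro inst m i c x
    have hinst : inst = instDecidableEqFin r := Subsingleton.elim _ _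
    subst hinst
    obtain ⟨w, C, l, h⟩ := prod_update_of (fun u v => B u v) hσ m i
    rw [h, h]
    cases l <;> simp [mul_assoc]

theorem pm_apply (B : V →ₗ[k] V →ₗ[k] k) {σ : Fin r → Fin r} (hσ : Pairs σ) (v : Fin r → V) :
    pm B hσ v = ∏ j with j < σ j, B (v j) (v (σ j)) := rfl

/-- the number of pairs -/
theorem Pairs.card {σ : Fin r → Fin r} (hσ : Pairs σ) :
    r = 2 * #{j : Fin r | j < σ j} := by
  have h1 : #{j : Fin r | j < σ j} = #{j : Fin r | ¬ j < σ j} := by
    refine Finset.card_bij' (fun j _ => σ j) (fun j _ => σ j) ?_ ?_ ?_ ?_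
    · intro j hj
      rw [mem_filter] at hj ⊢
      refine ⟨mem_univ _, ?_⟩
      rw [hσ.inv]
      exact not_lt.2 hj.2.le
    · intro j hj
      rw [mem_filter] at hj ⊢
      refine ⟨mem_univ _, ?_⟩
      rw [hσ.inv]
      exact lt_of_le_of_ne (not_lt.1 hj.2) (hσ.ne j)
    · intro j _
      exact hσ.inv j
    · intro j _
      exact hσ.inv j
  have h2 := Finset.card_filter_add_card_filter_not (s := (univ : Finset (Fin r)))
    (fun j => j < σ j)
  rw [Finset.card_univ, Fintype.card_fin] at h2
  omega

/-- a similitude multiplies the product by the power of its factor -/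
theorem pm_lie (B : V →ₗ[k] V →ₗ[k] k) {σ : Fin r → Fin r} (hσ : Pairs σ) (x : V → V) (c : k)
    (hx : ∀ v w, B (x v) w + B v (x w) = c * B v w) (v : Fin r → V) :
    ∑ i, pm B hσ (Function.update v i (x (v i))) = (#{j : Fin r | j < σ j} * c) * pm B hσ v := by
  have h1 : ∀ i, i < σ i → pm B hσ (Function.update v i (x (v i))) +
      pm B hσ (Function.update v (σ i) (x (v (σ i)))) = c * pm B hσ v := by
    intro i hi
    have hmem : i ∈ univ.filter fun j => j < σ j := by simpa using hi
    have hrest : ∀ u : Fin r → V, (∀ j, j ≠ i → j ≠ σ i → u j = v j) →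
        ∏ j ∈ (univ.filter fun j => j < σ j).erase i, B (u j) (u (σ j)) =
          ∏ j ∈ (univ.filter fun j => j < σ j).erase i, B (v j) (v (σ j)) := by
      intro u hu
      refine prod_congr rfl fun j hj => ?_
      rw [mem_erase, mem_filter] at hj
      have h2 : j ≠ σ i := by
        intro h'
        have h3 := hj.2.2
        rw [h', hσ.inv] at h3
        exact lt_asymm h3 hi
      have h3 : σ j ≠ i := by
        intro h'
        apply h2
        rw [← h', hσ.inv]
      have h4 : σ j ≠ σ i := by
        intro h'
        apply hj.1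
        rw [← hσ.inv j, h', hσ.inv]
      rw [hu j hj.1 h2, hu (σ j) h3 h4]
    rw [pm_apply, pm_apply, pm_apply, ← mul_prod_erase _ _ hmem, ← mul_prod_erase _ _ hmem,
      ← mul_prod_erase _ _ hmem, hrest (Function.update v i (x (v i))), hrest
      (Function.update v (σ i) (x (v (σ i)))), Function.update_self, Function.update_self,
      Function.update_of_ne (hσ.ne i), Function.update_of_ne (hσ.ne i).symm, ← add_mul, hx]
    · ring
    · intro j _ hj
      rw [Function.update_of_ne hj]
    · intro j hj _
      rw [Function.update_of_ne hj]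
  have h2 : ∑ i with ¬ i < σ i, pm B hσ (Function.update v i (x (v i))) =
      ∑ i with i < σ i, pm B hσ (Function.update v (σ i) (x (v (σ i)))) := by
    refine Finset.sum_bij' (fun j _ => σ j) (fun j _ => σ j) ?_ ?_ ?_ ?_ ?_
    · intro j hj
      rw [mem_filter] at hj ⊢
      refine ⟨mem_univ _, ?_⟩
      rw [hσ.inv]
      exact lt_of_le_of_ne (not_lt.1 hj.2) (hσ.ne j)
    · intro j hj
      rw [mem_filter] at hj ⊢
      refine ⟨mem_univ _, ?_⟩
      rw [hσ.inv]
      exact not_lt.2 hj.2.le
    · intro j _
      exact hσ.inv j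
    · intro j _
      exact hσ.inv j
    · intro j _
      rw [hσ.inv]
  rw [← Finset.sum_filter_add_sum_filter_not univ (fun i => i < σ i), h2,
    ← Finset.sum_add_distrib, Finset.sum_congr rfl fun i hi => h1 i (mem_filter.1 hi).2,
    Finset.sum_const, nsmul_eq_mul, mul_assoc]

variable [FiniteDimensional k V]

/-- an orthogonal basis -/
theorem exists_orth [CharZero k] (B : V →ₗ[k] V →ₗ[k] k) (hs : ∀ v w, B v w = B w v)
    (hn : ∀ v, (∀ w, B v w = 0) → v = 0) :
    ∃ q : Basis (Fin (finrank k V)) k V, (∀ i j, i ≠ j → B (q i) (q j) = 0) ∧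
      ∀ i, B (q i) (q i) ≠ 0 := by
  have : Invertible (2 : k) := invertibleOfNonzero two_ne_zero
  have hs' : LinearMap.IsSymm B := ⟨fun u v => by
    rw [RingHom.id_apply]
    exact hs u v⟩
  obtain ⟨q, hq⟩ := LinearMap.BilinForm.exists_orthogonal_basis (B := B) hs'
  have hnd : B.SeparatingLeft := hn
  have hn' := hq.not_isOrtho_basis_self_of_separatingLeft hnd
  exact ⟨q, fun i j hij => LinearMap.isOrthoᵢ_def.mp hq _ _ hij, fun i => hn' _⟩

/-- **The first fundamental theorem in the stable range.** -/
theorem fft [CharZero k] (B : V →ₗ[k] V →ₗ[k] k) (hs : ∀ v w, B v w = B w v)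
    (hn : ∀ v, (∀ w, B v w = 0) → v = 0) (hr : r < finrank k V)
    (f : MultilinearMap k (fun _ : Fin r => V) k)
    (hf : ∀ (a b : V) (v : Fin r → V), ∑ i, f (Function.update v i (S B a b (v i))) = 0) :
    f ∈ Submodule.span k {g | ∃ (σ : Fin r → Fin r) (hσ : Pairs σ), g = pm B hσ} := by
  obtain ⟨q, hq1, hq2⟩ := exists_orth B hs hn
  obtain ⟨d, hd, hD⟩ : ∃ d : Fin (finrank k V) → k, (∀ a, d a ≠ 0) ∧
      ∀ a b, B (q a) (q b) = DD d a b := by
    refine ⟨fun a => B (q a) (q a), hq2, fun a b => ?_⟩
    rw [DD]
    split_ifs with h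
    · rw [h]
    · exact hq1 a b h
  have hkey := key (k := r) d hd univ (by simpa using hr)
    (fun J => f (fun j => q (J j)))
    (fun J J' h => by
      have : J = J' := funext fun j => h j (mem_univ _)
      rw [this]) (by
      intro a b hab J
      have h := hf (q a) (q b) (fun j => q (J j))
      have h2 : ∀ (j : Fin r) (x : Fin (finrank k V)),
          Function.update (fun j => q (J j)) j (q x) = fun i => q (Function.update J j x i) := by
        intro j x
        exact (Function.comp_update q J j x).symm
      have h3 : ∀ j, f (Function.update (fun j => q (J j)) j (S B (q a) (q b) (q (J j)))) =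
          DD d a (J j) * f (fun i => q (Function.update J j b i)) -
            DD d b (J j) * f (fun i => q (Function.update J j a i)) := by
        intro j
        rw [S_apply, MultilinearMap.map_update_sub, MultilinearMap.map_update_smul,
          MultilinearMap.map_update_smul, h2, h2, hD, hD, smul_eq_mul, smul_eq_mul]
      simp only [h3] at h
      rw [sum_sub_distrib, sub_eq_zero] at h
      rw [sum_filter, sum_filter]
      refine Eq.trans ?_ (h.trans ?_)
      · refine sum_congr rfl fun j _ => ?_
        rw [DD]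
        by_cases hj : J j = a
        · rw [if_pos hj, if_pos hj.symm]
        · rw [if_neg hj, if_neg (Ne.symm hj), zero_mul]
      · refine sum_congr rfl fun j _ => ?_
        rw [DD]
        by_cases hj : J j = b
        · rw [if_pos hj, if_pos hj.symm]
        · rw [if_neg hj, if_neg (Ne.symm hj), zero_mul])
  -- evaluation on the basis
  let evq : MultilinearMap k (fun _ : Fin r => V) k →ₗ[k]
      ((Fin r → Fin (finrank k V)) → k) :=
    { toFun := fun T J => T (fun j => q (J j))
      map_add' := fun _ _ => rfl
      map_smul' := fun _ _ => rfl }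
  have hinj : Function.Injective evq := by
    intro T T' h
    exact Basis.ext_multilinear (fun _ => q) fun J => congrFun h J
  let GG : Set (MultilinearMap k (fun _ : Fin r => V) k) :=
    {g | ∃ (σ : Fin r → Fin r) (hσ : Pairs σ), g = pm B hσ}
  have h1 : evq f ∈ (Submodule.span k GG).map evq := by
    rw [Submodule.map_span]
    refine Submodule.span_mono ?_ hkey
    rintro s ⟨σ, hσ1, hσ2, -, hσ4⟩
    refine ⟨pm B ⟨hσ1, fun j => hσ2 j (mem_univ _)⟩, ⟨σ, _, rfl⟩, ?_⟩
    funext I
    rw [hσ4 I]
    refine (pm_apply B ⟨hσ1, fun j => hσ2 j (mem_univ _)⟩ _).trans ?_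
    refine prod_congr rfl fun j _ => ?_
    exact hD _ _
  obtain ⟨T, hT, hT'⟩ := h1
  rw [← hinj hT']
  exact hT

/-- the same for multilinear maps with values in a vector space, with uniqueness -/
theorem fft_val [CharZero k] {M : Type*} [AddCommGroup M] [Module k M]
    [FiniteDimensional k M]
    (B : V →ₗ[k] V →ₗ[k] k) (hs : ∀ v w, B v w = B w v)
    (hn : ∀ v, (∀ w, B v w = 0) → v = 0) (hr : r < finrank k V) :
    ∃ (J : Type) (_ : Fintype J) (σ : J → Fin r → Fin r) (hσ : ∀ j, Pairs (σ j)),
      (∀ f : MultilinearMap k (fun _ : Fin r => V) M,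
        (∀ (a b : V) (v : Fin r → V), ∑ i, f (Function.update v i (S B a b (v i))) = 0) →
        ∃ m : J → M, f = ∑ j, (pm B (hσ j)).smulRight (m j)) ∧
      ∀ m : J → M, (∀ v, ∑ j, pm B (hσ j) v • m j = 0) → ∀ j, m j = 0 := by
  classical
  let GG : Set (MultilinearMap k (fun _ : Fin r => V) k) :=
    {g | ∃ (σ : Fin r → Fin r) (hσ : Pairs σ), g = pm B hσ}
  obtain ⟨s, hs1, hs2, hs3⟩ := exists_linearIndependent k GG
  have hs1' : ∀ g : s, ∃ (σ : Fin r → Fin r) (hσ : Pairs σ), (g : MultilinearMap k _ k) = pm B hσ :=
    fun g => hs1 g.2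
  choose τ hτ hτ' using hs1'
  have hfin : s.Finite := by
    refine Set.Finite.subset (Set.finite_range fun p : {σ : Fin r → Fin r // Pairs σ} =>
      pm B p.2) ?_
    intro g hg
    exact ⟨⟨τ ⟨g, hg⟩, hτ ⟨g, hg⟩⟩, (hτ' ⟨g, hg⟩).symm⟩
  -- an index type in `Type`
  obtain ⟨n, ⟨e⟩⟩ : ∃ n, Nonempty (Fin n ≃ s) := by
    have := hfin.fintype
    exact ⟨Fintype.card s, ⟨(Fintype.equivFin s).symm⟩⟩
  have hpm : ∀ j : Fin n, pm B (hτ (e j)) = (e j : MultilinearMap k (fun _ : Fin r => V) k) :=
    fun j => (hτ' (e j)).symm
  refine ⟨Fin n, inferInstance, fun j => τ (e j), fun j => hτ (e j), ?_, ?_⟩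
  · intro f hf
    let b := Module.finBasis k M
    have h1 : ∀ i, ∃ c : Fin n → k, (b.coord i).compMultilinearMap f =
        ∑ j, c j • pm B (hτ (e j)) := by
      intro i
      have h2 : (b.coord i).compMultilinearMap f ∈ Submodule.span k GG := by
        refine fft B hs hn hr _ fun a c v => ?_
        simp only [LinearMap.compMultilinearMap_apply]
        rw [← map_sum, hf, map_zero]
      have h3 : s = Set.range fun j : Fin n =>
          (e j : MultilinearMap k (fun _ : Fin r => V) k) := by
        ext g
        constructor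
        · intro hg
          exact ⟨e.symm ⟨g, hg⟩, by simp⟩
        · rintro ⟨j, rfl⟩
          exact (e j).2
      rw [← hs2, h3, Submodule.mem_span_range_iff_exists_fun] at h2
      obtain ⟨c, hc⟩ := h2
      refine ⟨c, ?_⟩
      rw [← hc]
      refine Finset.sum_congr rfl fun j _ => ?_
      rw [hpm]
    choose c hc using h1
    refine ⟨fun j => ∑ i, c i j • b i, ?_⟩
    ext v
    rw [← b.sum_repr (f v), _root_.sum_apply]
    simp only [MultilinearMap.smulRight_apply, Finset.smul_sum]
    rw [Finset.sum_comm]
    refine Finset.sum_congr rfl fun i _ => ?_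
    have h2 : b.repr (f v) i = ∑ j, c i j * pm B (hτ (e j)) v := by
      have h3 := congrArg (fun g => g v) (hc i)
      simpa using h3
    rw [h2, Finset.sum_smul]
    refine Finset.sum_congr rfl fun j _ => ?_
    rw [smul_smul, mul_comm]
  · intro m hm j
    let b := Module.finBasis k M
    apply b.ext_elem
    intro i
    rw [map_zero, Finsupp.zero_apply]
    have hli : LinearIndependent k fun j : Fin n =>
        (e j : MultilinearMap k (fun _ : Fin r => V) k) := hs3.comp e e.injective
    rw [Fintype.linearIndependent_iff] at hli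
    refine hli (fun j => b.repr (m j) i) ?_ j
    ext v
    rw [_root_.sum_apply, _root_.zero_apply]
    have h1 := congrArg (fun z => b.repr z i) (hm v)
    simp only [map_sum, map_smul, map_zero, Finsupp.zero_apply, Finsupp.smul_apply,
      Finsupp.finsetSum_apply, smul_eq_mul] at h1
    rw [← h1]
    refine Finset.sum_congr rfl fun j _ => ?_
    rw [_root_.smul_apply, smul_eq_mul, ← hpm j, mul_comm]

end fft

end Pool.Agent.TH164.One
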