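import Pool.Agent.TH164.One.Ops

/-!
# Irreducible Lie algebras of skew operators which contain an element of rank two: the end
-/

set_option autoImplicit false

open Module Finset

namespace Pool.Agent.TH164.One

section grow

variable {k : Type*} [Field k] {V : Type*} [AddCommGroup V] [Module k V]
variable {B : V →ₗ[k] V →ₗ[k] k} {L 𝔞 : Submodule k (Module.End k V)}

/-- a hyperbolic pair -/
structure Hyp (B : V →ₗ[k] V →ₗ[k] k) (e w : V) : Prop where
  ew : B e w = 1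
  ee : B e e = 0
  ww : B w w = 0

/-- orthogonal to a hyperbolic pair -/
def Perp (B : V →ₗ[k] V →ₗ[k] k) (e w v : V) : Prop := B e v = 0 ∧ B w v = 0

theorem Dat.we (hD : Dat B L 𝔞) {e w : V} (h : Hyp B e w) : B w e = 1 := by
  rw [hD.symm, h.ew]

theorem Hyp.e (hD : Dat B L 𝔞) {e w : V} (h : Hyp B e w) : S B e w e = -e := by
  rw [S_apply, h.ee, hD.we h, zero_smul, one_smul, zero_sub]

theorem Hyp.w {e w : V} (h : Hyp B e w) : S B e w w = w := by
  rw [S_apply, h.ew, h.ww, zero_smul, one_smul, sub_zero]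

theorem Perp.zero {e w v : V} (h : Perp B e w v) : S B e w v = 0 := by
  rw [S_apply, h.1, h.2, zero_smul, zero_smul, sub_zero]

/-- bracket with an element of `𝔞` -/
theorem Dat.brkS (hD : Dat B L 𝔞) {a b c d : V} (h : S B a b ∈ 𝔞) (h' : S B c d ∈ 𝔞) :
    S B (S B a b c) d + S B c (S B a b d) ∈ 𝔞 :=
  hD.ad_mem (hD.le h) h'

/-- separation of weights -/
theorem Dat.sep [CharZero k] (hD : Dat B L 𝔞) {H Z Z' : Module.End k V} (hH : H ∈ L)
    (h : Z + Z' ∈ 𝔞) {c c' : k} (h1 : H * Z - Z * H = c • Z) (h2 : H * Z' - Z' * H = c' • Z')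
    (hc : c ≠ c') : Z ∈ 𝔞 ∧ Z' ∈ 𝔞 := by
  have h3 := hD.brA _ hH _ h
  have h4 : H * (Z + Z') - (Z + Z') * H = c • Z + c' • Z' := by
    rw [← h1, ← h2]
    noncomm_ring
  rw [h4] at h3
  have h5 : (c - c') • Z ∈ 𝔞 := by
    have h6 : (c - c') • Z = (c • Z + c' • Z') - c' • (Z + Z') := by module
    rw [h6]
    exact 𝔞.sub_mem h3 (𝔞.smul_mem _ h)
  have h6 : Z ∈ 𝔞 := by
    have h7 := 𝔞.smul_mem (c - c')⁻¹ h5
    rwa [smul_smul, inv_mul_cancel₀ (sub_ne_zero.2 hc), one_smul] at h7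
  refine ⟨h6, ?_⟩
  have h7 := 𝔞.sub_mem h h6
  rwa [add_sub_cancel_left] at h7

theorem Dat.sep_w_e [CharZero k] (hD : Dat B L 𝔞) {e w p q : V} (h : Hyp B e w)
    (hH : S B e w ∈ 𝔞) (hp : Perp B e w p) (hq : Perp B e w q) (hZ : S B p w + S B e q ∈ 𝔞) :
    S B p w ∈ 𝔞 ∧ S B e q ∈ 𝔞 := by
  refine hD.sep (hD.le hH) hZ (c := 1) (c' := -1) ?_ ?_ ?_
  · rw [hD.brk (hD.le hH), hp.zero, h.w, S_zero_left, zero_add, one_smul]
  · rw [hD.brk (hD.le hH), hq.zero, h.e hD, S_zero_right, add_zero, ← neg_one_smul k e,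
      S_smul_left]
  · intro h1
    have h2 : (2 : k) = 0 := by linear_combination h1
    exact two_ne_zero h2

theorem Dat.sep_u_e [CharZero k] (hD : Dat B L 𝔞) {e w u p q : V} (h : Hyp B e w)
    (hH : S B e w ∈ 𝔞) (hu : Perp B e w u) (hp : Perp B e w p) (hq : Perp B e w q)
    (hZ : S B p u + S B e q ∈ 𝔞) : S B p u ∈ 𝔞 ∧ S B e q ∈ 𝔞 := by
  refine hD.sep (hD.le hH) hZ (c := 0) (c' := -1) ?_ ?_ ?_
  · rw [hD.brk (hD.le hH), hp.zero, hu.zero, S_zero_left, S_zero_right, zero_add, zero_smul]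
  · rw [hD.brk (hD.le hH), hq.zero, h.e hD, S_zero_right, add_zero, ← neg_one_smul k e,
      S_smul_left]
  · exact (neg_ne_zero.2 one_ne_zero).symm

theorem Dat.sep_u_w [CharZero k] (hD : Dat B L 𝔞) {e w u p q : V} (h : Hyp B e w)
    (hH : S B e w ∈ 𝔞) (hu : Perp B e w u) (hp : Perp B e w p) (hq : Perp B e w q)
    (hZ : S B p u + S B w q ∈ 𝔞) : S B p u ∈ 𝔞 ∧ S B w q ∈ 𝔞 := by
  refine hD.sep (hD.le hH) hZ (c := 0) (c' := 1) ?_ ?_ ?_
  · rw [hD.brk (hD.le hH), hp.zero, hu.zero, S_zero_left, S_zero_right, zero_add, zero_smul]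
  · rw [hD.brk (hD.le hH), hq.zero, h.w, S_zero_right, add_zero, one_smul]
  · exact one_ne_zero.symm

/-- a hyperbolic pair and an orthogonal anisotropic vector, with all products in `𝔞` -/
structure Tri (B : V →ₗ[k] V →ₗ[k] k) (𝔞 : Submodule k (Module.End k V)) (e w u : V) :
    Prop where
  hyp : Hyp B e w
  perp : Perp B e w u
  uu : B u u ≠ 0
  mew : S B e w ∈ 𝔞
  meu : S B e u ∈ 𝔞
  mwu : S B w u ∈ 𝔞

/-- the component orthogonal to `e`, `w`, `u` -/
noncomputable def pr (B : V →ₗ[k] V →ₗ[k] k) (e w u v : V) : V :=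
  v - B w v • e - B e v • w - (B u v / B u u) • u

section tri

variable [CharZero k] (hD : Dat B L 𝔞) {e w u : V} (hT : Tri B 𝔞 e w u)

include hD hT

theorem pr_perp (v : V) : Perp B e w (pr B e w u v) ∧ B u (pr B e w u v) = 0 := by
  have h1 := hD.we hT.hyp
  have h2 : B u e = 0 := by rw [hD.symm]; exact hT.perp.1
  have h3 : B u w = 0 := by rw [hD.symm]; exact hT.perp.2
  have h4 := hT.uu
  unfold pr
  refine ⟨⟨?_, ?_⟩, ?_⟩
  · simp only [map_sub, map_smul, smul_eq_mul, hT.hyp.ee, hT.hyp.ew, hT.perp.1]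
    ring
  · simp only [map_sub, map_smul, smul_eq_mul, hT.hyp.ww, h1, hT.perp.2]
    ring
  · simp only [map_sub, map_smul, smul_eq_mul, h2, h3]
    field_simp
    ring

omit hD hT [CharZero k] in
theorem pr_eq (v : V) :
    v = B w v • e + B e v • w + (B u v / B u u) • u + pr B e w u v := by
  unfold pr
  abel

/-- the vectors `v` whose products with `e`, `w`, `u` are in `𝔞` -/
def U1 (B : V →ₗ[k] V →ₗ[k] k) (𝔞 : Submodule k (Module.End k V)) (e w u : V) :
    Submodule k V where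
  carrier := {v | S B v e ∈ 𝔞 ∧ S B v w ∈ 𝔞 ∧ S B v u ∈ 𝔞}
  zero_mem' := by
    refine ⟨?_, ?_, ?_⟩ <;> rw [S_zero_left] <;> exact 𝔞.zero_mem
  add_mem' := by
    rintro a b ⟨h1, h2, h3⟩ ⟨h4, h5, h6⟩
    refine ⟨?_, ?_, ?_⟩ <;> rw [S_add_left]
    · exact 𝔞.add_mem h1 h4
    · exact 𝔞.add_mem h2 h5
    · exact 𝔞.add_mem h3 h6
  smul_mem' := by
    rintro c a ⟨h1, h2, h3⟩
    refine ⟨?_, ?_, ?_⟩ <;> rw [S_smul_left]
    · exact 𝔞.smul_mem _ h1
    · exact 𝔞.smul_mem _ h2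
    · exact 𝔞.smul_mem _ h3

omit hD [CharZero k] in
theorem e_mem : e ∈ U1 B 𝔞 e w u := by
  refine ⟨?_, hT.mew, hT.meu⟩
  rw [S_self]
  exact 𝔞.zero_mem

omit hD [CharZero k] in
theorem w_mem : w ∈ U1 B 𝔞 e w u := by
  refine ⟨?_, ?_, hT.mwu⟩
  · rw [S_swap]
    exact 𝔞.neg_mem hT.mew
  · rw [S_self]
    exact 𝔞.zero_mem

omit hD [CharZero k] in
theorem u_mem : u ∈ U1 B 𝔞 e w u := by
  refine ⟨?_, ?_, ?_⟩
  · rw [S_swap]
    exact 𝔞.neg_mem hT.meu
  · rw [S_swap]
    exact 𝔞.neg_mem hT.mwu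
  · rw [S_self]
    exact 𝔞.zero_mem

theorem pr_mem {x : Module.End k V} (hx : x ∈ L) :
    pr B e w u (x e) ∈ U1 B 𝔞 e w u ∧ pr B e w u (x w) ∈ U1 B 𝔞 e w u ∧
      pr B e w u (x u) ∈ U1 B 𝔞 e w u := by
  have he := pr_eq (B := B) (e := e) (w := w) (u := u) (x e)
  have hw := pr_eq (B := B) (e := e) (w := w) (u := u) (x w)
  have hu := pr_eq (B := B) (e := e) (w := w) (u := u) (x u)
  obtain ⟨hp1, hp1'⟩ := pr_perp hD hT (x e)
  obtain ⟨hp2, hp2'⟩ := pr_perp hD hT (x w)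
  obtain ⟨hp3, hp3'⟩ := pr_perp hD hT (x u)
  set p1 := pr B e w u (x e)
  set p2 := pr B e w u (x w)
  set p3 := pr B e w u (x u)
  have huw : S B u w ∈ 𝔞 := (u_mem hT).2.1
  have h1 : S B p1 w + S B e p2 ∈ 𝔞 := by
    have h := hD.ad_mem hx hT.mew
    rw [he, hw] at h
    simp only [S_add_left, S_add_right, S_smul_left, S_smul_right, S_self, smul_zero, zero_add,
      add_zero] at h
    have h' : S B p1 w + S B e p2 =
        (B w (x e) • S B e w + (B u (x e) / B u u) • S B u w + S B p1 w +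
          (B e (x w) • S B e w + (B u (x w) / B u u) • S B e u + S B e p2)) -
        (B w (x e) • S B e w + (B u (x e) / B u u) • S B u w + B e (x w) • S B e w +
          (B u (x w) / B u u) • S B e u) := by abel
    rw [h']
    exact 𝔞.sub_mem h (𝔞.add_mem (𝔞.add_mem (𝔞.add_mem (𝔞.smul_mem _ hT.mew)
      (𝔞.smul_mem _ huw)) (𝔞.smul_mem _ hT.mew)) (𝔞.smul_mem _ hT.meu))
  have h2 : S B p1 u + S B e p3 ∈ 𝔞 := by
    have h := hD.ad_mem hx hT.meu
    rw [he, hu] at h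
    simp only [S_add_left, S_add_right, S_smul_left, S_smul_right, S_self, smul_zero, zero_add,
      add_zero] at h
    have h' : S B p1 u + S B e p3 =
        (B w (x e) • S B e u + B e (x e) • S B w u + S B p1 u +
          (B e (x u) • S B e w + (B u (x u) / B u u) • S B e u + S B e p3)) -
        (B w (x e) • S B e u + B e (x e) • S B w u + B e (x u) • S B e w +
          (B u (x u) / B u u) • S B e u) := by abel
    rw [h']
    exact 𝔞.sub_mem h (𝔞.add_mem (𝔞.add_mem (𝔞.add_mem (𝔞.smul_mem _ hT.meu)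
      (𝔞.smul_mem _ hT.mwu)) (𝔞.smul_mem _ hT.mew)) (𝔞.smul_mem _ hT.meu))
  have h3 : S B p2 u + S B w p3 ∈ 𝔞 := by
    have h := hD.ad_mem hx hT.mwu
    rw [hw, hu] at h
    simp only [S_add_left, S_add_right, S_smul_left, S_smul_right, S_self, smul_zero, zero_add,
      add_zero] at h
    have h' : S B p2 u + S B w p3 =
        (B w (x w) • S B e u + B e (x w) • S B w u + S B p2 u +
          (B w (x u) • S B w e + (B u (x u) / B u u) • S B w u + S B w p3)) -
        (B w (x w) • S B e u + B e (x w) • S B w u + B w (x u) • S B w e +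
          (B u (x u) / B u u) • S B w u) := by abel
    rw [h']
    exact 𝔞.sub_mem h (𝔞.add_mem (𝔞.add_mem (𝔞.add_mem (𝔞.smul_mem _ hT.meu)
      (𝔞.smul_mem _ hT.mwu)) (𝔞.smul_mem _ (w_mem hT).1)) (𝔞.smul_mem _ hT.mwu))
  obtain ⟨h4, h5⟩ := hD.sep_w_e hT.hyp hT.mew hp1 hp2 h1
  obtain ⟨h6, h7⟩ := hD.sep_u_e hT.hyp hT.mew hT.perp hp1 hp3 h2
  obtain ⟨h8, h9⟩ := hD.sep_u_w hT.hyp hT.mew hT.perp hp2 hp3 h3
  have hue : B u e = 0 := by rw [hD.symm]; exact hT.perp.1
  have huw' : B u w = 0 := by rw [hD.symm]; exact hT.perp.2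
  have hq : -B u u ≠ 0 := neg_ne_zero.2 hT.uu
  have h10 : S B p1 e ∈ 𝔞 := by
    have h := hD.brkS hT.meu h6
    have h' : S B e u p1 = 0 := by rw [S_apply, hp1.1, hp1', zero_smul, zero_smul, sub_zero]
    have h'' : S B e u u = (-B u u) • e := by
      rw [S_apply, hT.perp.1, zero_smul, zero_sub, neg_smul]
    rw [h', h'', S_zero_left, zero_add, S_smul_right] at h
    have h3 := 𝔞.smul_mem (-B u u)⁻¹ h
    rwa [smul_smul, inv_mul_cancel₀ hq, one_smul] at h3
  have h11 : S B p2 w ∈ 𝔞 := by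
    have h := hD.brkS hT.mwu h8
    have h' : S B w u p2 = 0 := by rw [S_apply, hp2.2, hp2', zero_smul, zero_smul, sub_zero]
    have h'' : S B w u u = (-B u u) • w := by
      rw [S_apply, hT.perp.2, zero_smul, zero_sub, neg_smul]
    rw [h', h'', S_zero_left, zero_add, S_smul_right] at h
    have h3 := 𝔞.smul_mem (-B u u)⁻¹ h
    rwa [smul_smul, inv_mul_cancel₀ hq, one_smul] at h3
  have h12 : S B p3 w ∈ 𝔞 := by
    rw [S_swap]
    exact 𝔞.neg_mem h9
  have h13 : S B p3 u ∈ 𝔞 := by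
    have h := hD.brkS hT.meu h12
    have h' : S B e u p3 = 0 := by rw [S_apply, hp3.1, hp3', zero_smul, zero_smul, sub_zero]
    have h'' : S B e u w = u := by
      rw [S_apply, hT.hyp.ew, huw', zero_smul, one_smul, sub_zero]
    rwa [h', h'', S_zero_left, zero_add] at h
  refine ⟨⟨h10, h4, h6⟩, ⟨?_, h11, h8⟩, ⟨?_, h12, h13⟩⟩
  · rw [S_swap]
    exact 𝔞.neg_mem h5
  · rw [S_swap]
    exact 𝔞.neg_mem h7

omit [CharZero k] in
theorem U1_prod {v v' : V} (hv : v ∈ U1 B 𝔞 e w u) (hv' : v' ∈ U1 B 𝔞 e w u) :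
    S B v v' ∈ 𝔞 := by
  have h := hD.brkS hv.2.2 hv'.2.2
  have h1 : S B v u v' = B v v' • u - B u v' • v := rfl
  have h2 : S B v u u = B v u • u - B u u • v := rfl
  rw [h1, h2] at h
  simp only [S_sub_left, S_sub_right, S_smul_left, S_smul_right, S_self, smul_zero, zero_sub] at h
  have h3 : B u u • S B v v' ∈ 𝔞 := by
    have h4 : B u u • S B v v' = (-(B u v' • S B v u) + (B v u • S B v' u - B u u • S B v' v)) +
        B u v' • S B v u - B v u • S B v' u := by
      rw [S_swap B v v']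
      module
    rw [h4]
    exact 𝔞.sub_mem (𝔞.add_mem h (𝔞.smul_mem _ hv.2.2)) (𝔞.smul_mem _ hv'.2.2)
  have h4 := 𝔞.smul_mem (B u u)⁻¹ h3
  rwa [smul_smul, inv_mul_cancel₀ hT.uu, one_smul] at h4

/-- **All products are in `𝔞`.** -/
theorem all_mem (v v' : V) : S B v v' ∈ 𝔞 := by
  have hx3 : ∀ x ∈ L, x e ∈ U1 B 𝔞 e w u ∧ x w ∈ U1 B 𝔞 e w u ∧ x u ∈ U1 B 𝔞 e w u := by
    intro x hx
    obtain ⟨h1, h2, h3⟩ := pr_mem hD hT hx
    have key : ∀ v, pr B e w u v ∈ U1 B 𝔞 e w u → v ∈ U1 B 𝔞 e w u := by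
      intro v hv
      rw [pr_eq (B := B) (e := e) (w := w) (u := u) v]
      exact Submodule.add_mem _ (Submodule.add_mem _ (Submodule.add_mem _
        (Submodule.smul_mem _ _ (e_mem hT)) (Submodule.smul_mem _ _ (w_mem hT)))
        (Submodule.smul_mem _ _ (u_mem hT))) hv
    exact ⟨key _ h1, key _ h2, key _ h3⟩
  have hst : ∀ x ∈ L, ∀ v ∈ U1 B 𝔞 e w u, x v ∈ U1 B 𝔞 e w u := by
    intro x hx v hv
    obtain ⟨h1, h2, h3⟩ := hx3 x hx
    have key : ∀ d, S B v d ∈ 𝔞 → x d ∈ U1 B 𝔞 e w u → S B (x v) d ∈ 𝔞 := by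
      intro d hd hxd
      have h4 := hD.ad_mem hx hd
      have h5 := 𝔞.sub_mem h4 (U1_prod hD hT hv hxd)
      rwa [add_sub_cancel_right] at h5
    exact ⟨key e hv.1 h1, key w hv.2.1 h2, key u hv.2.2 h3⟩
  have htop : U1 B 𝔞 e w u = ⊤ := by
    rcases hD.irr _ hst with h1 | h1
    · exfalso
      have h2 := e_mem hT
      rw [h1, Submodule.mem_bot] at h2
      have h3 := hT.hyp.ew
      rw [h2, map_zero, LinearMap.zero_apply] at h3
      exact zero_ne_one h3
    · exact h1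
  refine U1_prod hD hT ?_ ?_ <;> rw [htop] <;> exact Submodule.mem_top

end tri

/-- from an element of rank two with one isotropic direction to a triple -/
theorem Dat.exists_tri [CharZero k] (hD : Dat B L 𝔞) {e f : V} (hN : Nil B e f)
    (h : S B e f ∈ 𝔞) : ∃ w u, Tri B 𝔞 e w u := by
  obtain ⟨y, hy, hq⟩ := hD.exists_aniso hN h
  have hyL := hD.le hy
  have h1 := hD.exe hN h hyL
  have h2 := hD.ad_mem hyL h1
  rw [S_self, zero_add] at h2
  set w0 := y (y e) with hw0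
  have h3 : B e w0 = -B (y e) (y e) := hD.skew' hyL _ _
  have h4 : B e w0 ≠ 0 := by rw [h3]; exact neg_ne_zero.2 hq
  obtain ⟨b, hb⟩ : ∃ b, b = B w0 w0 / (2 * B e w0) := ⟨_, rfl⟩
  obtain ⟨w, hw⟩ : ∃ w, w = (B e w0)⁻¹ • (w0 - b • e) := ⟨_, rfl⟩
  have hw0e : B w0 e = B e w0 := hD.symm _ _
  have hHyp : Hyp B e w := by
    refine ⟨?_, hN.ee, ?_⟩
    · rw [hw]
      simp only [map_smul, map_sub, smul_eq_mul, hN.ee, mul_zero, sub_zero]
      exact inv_mul_cancel₀ h4
    · rw [hw]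
      simp only [map_smul, map_sub, LinearMap.smul_apply, LinearMap.sub_apply, smul_eq_mul,
        hN.ee, hw0e, hb]
      field_simp
      ring
  have hew : S B e w ∈ 𝔞 := by
    rw [hw, S_smul_right, S_sub_right, S_smul_right, S_self, smul_zero, sub_zero]
    exact 𝔞.smul_mem _ h2
  have hwe := hD.we hHyp
  have hye := hD.self_zero hyL e
  have hyw := hD.self_zero hyL w
  obtain ⟨a, ha⟩ : ∃ a, a = B w (y e) := ⟨_, rfl⟩
  obtain ⟨u, hu⟩ : ∃ u, u = y e - a • e := ⟨_, rfl⟩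
  have hyee : B (y e) e = 0 := by rw [hD.symm, hye]
  have hperp : Perp B e w u := by
    refine ⟨?_, ?_⟩
    · rw [hu, map_sub, map_smul, hye, hN.ee, smul_zero, sub_zero]
    · rw [hu, map_sub, map_smul, hwe, smul_eq_mul, mul_one, ha, sub_self]
  have huu : B u u ≠ 0 := by
    rw [hu]
    simp only [map_sub, map_smul, LinearMap.sub_apply, LinearMap.smul_apply, smul_eq_mul,
      hN.ee, hye, hyee, mul_zero, sub_zero]
    exact hq
  have hyeq : y e = a • e + u := by rw [hu]; abel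
  refine ⟨w, u, hHyp, hperp, huu, hew, ?_, ?_⟩
  · rw [hu, S_sub_right, S_smul_right, S_self, smul_zero, sub_zero]
    exact h1
  · obtain ⟨u', hu'⟩ : ∃ u', u' = y w + a • w := ⟨_, rfl⟩
    have hyweq : y w = u' - a • w := by rw [hu']; abel
    have hperp' : Perp B e w u' := by
      refine ⟨?_, ?_⟩
      · rw [hu', map_add, map_smul, hHyp.ew, smul_eq_mul, mul_one, hD.skew' hyL e w,
          hD.symm (y e) w, ha, neg_add_cancel]
      · rw [hu', map_add, map_smul, hHyp.ww, smul_zero, add_zero, hyw]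
    have h5 := hD.ad_mem hyL hew
    rw [hyeq, hyweq, S_add_left, S_smul_left, S_sub_right, S_smul_right] at h5
    have h6 : S B u w + S B e u' ∈ 𝔞 := by
      have h7 : a • S B e w + S B u w + (S B e u' - a • S B e w) = S B u w + S B e u' := by abel
      rwa [h7] at h5
    have h7 := (hD.sep_w_e hHyp hew hperp hperp' h6).1
    rw [S_swap]
    exact 𝔞.neg_mem h7

/-- from a hyperbolic element to an element of rank two with one isotropic direction -/
theorem Dat.exists_nil [CharZero k] (hD : Dat B L 𝔞) {e w : V} (h : Hyp B e w)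
    (hew : S B e w ∈ 𝔞) : ∃ v, Nil B w v ∧ S B w v ∈ 𝔞 := by
  by_contra hcon
  push Not at hcon
  have hwe := hD.we h
  have hw0 : w ≠ 0 := by
    rintro rfl
    have h1 := h.ew
    rw [map_zero] at h1
    exact zero_ne_one h1
  have he0 : e ≠ 0 := by
    rintro rfl
    have h1 := h.ew
    rw [map_zero, LinearMap.zero_apply] at h1
    exact zero_ne_one h1
  let E : Submodule k V :=
    { carrier := {v | B e v = 0 ∧ B w v = 0 ∧ S B w v ∈ 𝔞}
      zero_mem' := ⟨map_zero _, map_zero _, by rw [S_zero_right]; exact 𝔞.zero_mem⟩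
      add_mem' := by
        rintro a b ⟨h1, h2, h3⟩ ⟨h4, h5, h6⟩
        refine ⟨by rw [map_add, h1, h4, add_zero], by rw [map_add, h2, h5, add_zero], ?_⟩
        rw [S_add_right]
        exact 𝔞.add_mem h3 h6
      smul_mem' := by
        rintro c a ⟨h1, h2, h3⟩
        refine ⟨by rw [map_smul, h1, smul_zero], by rw [map_smul, h2, smul_zero], ?_⟩
        rw [S_smul_right]
        exact 𝔞.smul_mem _ h3 }
  have hE0 : ∀ v ∈ E, B v v = 0 := by
    intro v hv
    by_contra hvv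
    exact hcon v ⟨hw0, h.ww, hv.2.1, hvv⟩ hv.2.2
  have hE : ∀ v ∈ E, ∀ v' ∈ E, B v v' = 0 := by
    intro v hv v' hv'
    have h1 := hE0 _ (E.add_mem hv hv')
    simp only [map_add, LinearMap.add_apply, hE0 v hv, hE0 v' hv', hD.symm v' v, zero_add,
      add_zero] at h1
    rw [← two_mul] at h1
    exact (mul_eq_zero.1 h1).resolve_left two_ne_zero
  -- the components of `x e` and `x w`
  have hcomp : ∀ x ∈ L, x e - B w (x e) • e ∈ E ∧
      Perp B e w (x w + B w (x e) • w) := by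
    intro x hx
    have hxe := hD.self_zero hx e
    have hxw := hD.self_zero hx w
    have hp : Perp B e w (x e - B w (x e) • e) := by
      refine ⟨?_, ?_⟩
      · rw [map_sub, map_smul, hxe, h.ee, smul_zero, sub_zero]
      · rw [map_sub, map_smul, hwe, smul_eq_mul, mul_one, sub_self]
    have hp' : Perp B e w (x w + B w (x e) • w) := by
      refine ⟨?_, ?_⟩
      · rw [map_add, map_smul, h.ew, smul_eq_mul, mul_one, hD.skew' hx e w, hD.symm (x e) w,
          neg_add_cancel]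
      · rw [map_add, map_smul, h.ww, smul_zero, add_zero, hxw]
    have h1 := hD.ad_mem hx hew
    have h2 : S B (x e - B w (x e) • e) w + S B e (x w + B w (x e) • w) ∈ 𝔞 := by
      rw [S_sub_left, S_smul_left, S_add_right, S_smul_right]
      have h3 : S B (x e) w - B w (x e) • S B e w + (S B e (x w) + B w (x e) • S B e w) =
          S B (x e) w + S B e (x w) := by abel
      rwa [h3]
    have h3 := (hD.sep_w_e h hew hp hp' h2).1
    refine ⟨⟨hp.1, hp.2, ?_⟩, hp'⟩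
    rw [S_swap]
    exact 𝔞.neg_mem h3
  let U : Submodule k V := (k ∙ e) ⊔ E
  have heU : e ∈ U := Submodule.mem_sup_left (Submodule.mem_span_singleton_self e)
  have hEU : ∀ v ∈ E, v ∈ U := fun v hv => Submodule.mem_sup_right hv
  have hst : ∀ x ∈ L, ∀ v ∈ U, x v ∈ U := by
    intro x hx v hv
    have hxe : x e ∈ U := by
      have h1 := U.add_mem (U.smul_mem (B w (x e)) heU) (hEU _ (hcomp x hx).1)
      rwa [add_sub_cancel] at h1
    obtain ⟨a, ha, v', hv', rfl⟩ := Submodule.mem_sup.1 hv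
    obtain ⟨c, rfl⟩ := Submodule.mem_span_singleton.1 ha
    rw [map_add, map_smul]
    refine U.add_mem (U.smul_mem _ hxe) ?_
    -- `x v'`
    obtain ⟨hu, hp'⟩ := hcomp x hx
    have h1 : B e (x v') = 0 := by
      have h2 : x e = B w (x e) • e + (x e - B w (x e) • e) := by abel
      rw [hD.skew' hx e v', h2, map_add, LinearMap.add_apply, map_smul, LinearMap.smul_apply,
        hv'.1, smul_zero, zero_add, hE _ hu _ hv', neg_zero]
    obtain ⟨v'', hv''⟩ : ∃ v'', v'' = x v' - B w (x v') • e := ⟨_, rfl⟩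
    have hpv : Perp B e w v'' := by
      refine ⟨?_, ?_⟩
      · rw [hv'', map_sub, map_smul, h.ee, smul_zero, sub_zero, h1]
      · rw [hv'', map_sub, map_smul, hwe, smul_eq_mul, mul_one, sub_self]
    have h2 := hD.ad_mem hx hv'.2.2
    have h3 : S B (x w + B w (x e) • w) v' + S B w v'' ∈ 𝔞 := by
      rw [hv'', S_add_left, S_smul_left, S_sub_right, S_smul_right]
      have h4 : S B (x w) v' + B w (x e) • S B w v' + (S B w (x v') - B w (x v') • S B w e) =
          (S B (x w) v' + S B w (x v')) + B w (x e) • S B w v' - B w (x v') • S B w e := by abel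
      rw [h4]
      refine 𝔞.sub_mem (𝔞.add_mem h2 (𝔞.smul_mem _ hv'.2.2)) (𝔞.smul_mem _ ?_)
      rw [S_swap]
      exact 𝔞.neg_mem hew
    have h4 := (hD.sep_u_w h hew ⟨hv'.1, hv'.2.1⟩ hp' hpv h3).2
    have h5 : x v' = B w (x v') • e + v'' := by rw [hv'']; abel
    rw [h5]
    exact U.add_mem (U.smul_mem _ heU) (hEU _ ⟨hpv.1, hpv.2, h4⟩)
  rcases hD.irr U hst with h1 | h1
  · rw [h1, Submodule.mem_bot] at heU
    exact he0 heU
  · have h2 : w ∈ U := by rw [h1]; exact Submodule.mem_top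
    obtain ⟨a, ha, v', hv', h3⟩ := Submodule.mem_sup.1 h2
    obtain ⟨c, rfl⟩ := Submodule.mem_span_singleton.1 ha
    have h4 := h.ew
    rw [← h3, map_add, map_smul, h.ee, smul_zero, zero_add, hv'.1] at h4
    exact zero_ne_one h4

end grow

end Pool.Agent.TH164.One
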