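import Pool.Agent.TH164.Gou.Main
import Pool.Agent.TH164.One.Fft

/-!
# Tate classes on the products `X × ... × X × Z` with one special place
-/

set_option autoImplicit false

open Module Finset

namespace Pool.Agent.TH164.One

open Pool.Agent.TH164.Gou

section defs

variable {k : Type} [Field k] {h : Type} [LieRing h] [LieAlgebra k h]

/-- The operator given by an element of the Lie algebra. -/
def op (V : Rp k h) (x : h) : Module.End k V.V := LieModule.toEnd k h V.V x

/-- The representation has no invariant subspaces besides `0` and `V`. -/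
def Irr (V : Rp k h) : Prop :=
  ∀ U : Submodule k V.V, (∀ x : h, ∀ u ∈ U, ⁅x, u⁆ ∈ U) → U = ⊥ ∨ U = ⊤

/-- The form `B` on `V ⊆ H^n(X)` with values in `k(-n)` is symmetric, nondegenerate and
equivariant; the linear form `χ` is the action of `h` on the Tate module. -/
structure Orth {V : Rp k h} (B : V.Form) (χ : h →ₗ[k] k) (n : ℕ) : Prop where
  symm : ∀ v w, B.val v w = B.val w v
  nondeg : ∀ v, (∀ w, B.val v w = 0) → v = 0
  inv : ∀ (x : h) v w, B.val ⁅x, v⁆ w + B.val v ⁅x, w⁆ = -(n * χ x) * B.val v w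

/-- The element `x` acts as zero on the Tate module and on `M`, and on `V` it acts with rank two and
nonzero square. -/
structure Special (V M : Rp k h) (χ : h →ₗ[k] k) (x : h) : Prop where
  chi : χ x = 0
  kill : M.Kill x
  rank : finrank k (LinearMap.range (op V x)) = 2
  sq : ∃ v : V.V, ⁅x, ⁅x, v⁆⁆ ≠ 0

/-- The element `a` of `M = H(Z)` is a Tate class of codimension `j`. -/
def TateAt {M : Rp k h} (χ : h →ₗ[k] k) (j : ℤ) (a : M.V) : Prop :=
  ∀ x : h, ⁅x, a⁆ = (-(j * χ x)) • a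

/-- The classes on `X ^ r × Z` in the Künneth component `V ⊗ ... ⊗ V ⊗ M`; by duality these are
the multilinear maps from `V ^ r` to `M`. -/
def Cls (V M : Rp k h) (r : ℕ) : Type := MultilinearMap k (fun _ : Fin r => V.V) M.V

noncomputable instance (V M : Rp k h) (r : ℕ) : AddCommGroup (Cls V M r) :=
  inferInstanceAs (AddCommGroup (MultilinearMap k (fun _ : Fin r => V.V) M.V))

noncomputable instance (V M : Rp k h) (r : ℕ) : Module k (Cls V M r) :=
  inferInstanceAs (Module k (MultilinearMap k (fun _ : Fin r => V.V) M.V))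

/-- The value of a multilinear map. -/
def Cls.ap {V M : Rp k h} {r : ℕ} (f : Cls V M r) (v : Fin r → V.V) : M.V :=
  DFunLike.coe (F := MultilinearMap k (fun _ : Fin r => V.V) M.V) f v

/-- The class is a Tate class of codimension `j`. -/
def Cls.TateAt {V M : Rp k h} {r : ℕ} (f : Cls V M r) (χ : h →ₗ[k] k) (n : ℕ) (j : ℤ) : Prop :=
  ∀ (x : h) (v : Fin r → V.V), ∑ i, f.ap (Function.update v i ⁅x, v i⁆) =
    ⁅x, f.ap v⁆ + ((j - n * r) * χ x) • f.ap v

/-- The product of the classes of the form `B` on the pairs `{i, σ i}` of factors of `X ^ r` and of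
the class `a` on `Z`. -/
def mat {V M : Rp k h} {r : ℕ} (B : V.Form) {σ : Fin r → Fin r} (hσ : Pairs σ) (a : M.V) :
    Cls V M r := (pm (id B) hσ).smulRight a

/-- The number of pairs `{i, σ i}`. -/
def pairs {r : ℕ} (σ : Fin r → Fin r) : ℕ := #{i : Fin r | i < σ i}

/-- The combinations of the products of Tate classes on `Z` and of classes of the form `B`. -/
noncomputable def prods {V : Rp k h} (M : Rp k h) (B : V.Form) (χ : h →ₗ[k] k) (n r : ℕ) (j : ℤ) :
    Submodule k (Cls V M r) :=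
  Submodule.span k {f | ∃ (σ : Fin r → Fin r) (hσ : Pairs σ) (a : M.V),
    One.TateAt χ (j - n * pairs σ) a ∧ f = mat B hσ a}

/-- The combinations of classes of algebraic cycles on `Z` and in `V ⊗ ... ⊗ V ⊗ H(Z)`; the
class of the form `B` on `X × X` is algebraic. -/
structure Cyc {V : Rp k h} (M : Rp k h) (B : V.Form) (n : ℕ) where
  /-- algebraic classes of codimension `j` on `Z` -/
  base : ℤ → Submodule k M.V
  /-- algebraic classes of codimension `j` on `X ^ r × Z` -/
  alg : ∀ r : ℕ, ℤ → Submodule k (Cls V M r)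
  mat_mem : ∀ (r : ℕ) (σ : Fin r → Fin r) (hσ : Pairs σ) (j : ℤ), ∀ a ∈ base j,
    mat B hσ a ∈ alg r (j + n * pairs σ)
  zero : ∀ (j : ℤ), ∀ f ∈ alg 0 j, f.ap 0 ∈ base j

/-- The Tate conjecture for `Z`. -/
def Cyc.Tate {V M : Rp k h} {B : V.Form} {n : ℕ} (C : Cyc M B n) (χ : h →ₗ[k] k) : Prop :=
  ∀ (j : ℤ) (a : M.V), One.TateAt χ j a → a ∈ C.base j

/-- The Tate conjecture for the Künneth component `V ⊗ ... ⊗ V ⊗ H(Z)` of `X ^ r × Z`. -/
def Cyc.TatePow {V M : Rp k h} {B : V.Form} {n : ℕ} (C : Cyc M B n) (χ : h →ₗ[k] k) (r : ℕ) :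
    Prop := ∀ (j : ℤ) (f : Cls V M r), f.TateAt χ n j → f ∈ C.alg r j

end defs

section proofs

variable {k : Type} [Field k] {h : Type} [LieRing h] [LieAlgebra k h]
variable {V M : Rp k h} {B : V.Form} {χ : h →ₗ[k] k} {n : ℕ}

/-- the skew operators given by the Lie algebra -/
def LL (V : Rp k h) (χ : h →ₗ[k] k) (n : ℕ) : Submodule k (Module.End k V.V) where
  carrier := {T | ∃ x : h, ∀ v, ⁅x, v⁆ = T v - (n * χ x / 2) • v}
  zero_mem' := ⟨0, fun v => by simp⟩
  add_mem' := by
    rintro T T' ⟨x, hx⟩ ⟨y, hy⟩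
    refine ⟨x + y, fun v => ?_⟩
    rw [add_lie, hx, hy, LinearMap.add_apply, map_add]
    module
  smul_mem' := by
    rintro c T ⟨x, hx⟩
    refine ⟨c • x, fun v => ?_⟩
    rw [smul_lie, hx, LinearMap.smul_apply, map_smul, smul_eq_mul]
    module

/-- the operators given by the elements which act as zero on `M` and on the Tate module -/
def AA (V M : Rp k h) (χ : h →ₗ[k] k) : Submodule k (Module.End k V.V) where
  carrier := {T | ∃ x : h, χ x = 0 ∧ M.Kill x ∧ ∀ v, ⁅x, v⁆ = T v}
  zero_mem' := ⟨0, map_zero _, fun m => zero_lie m, fun v => by simp⟩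
  add_mem' := by
    rintro T T' ⟨x, hx, hx', hx''⟩ ⟨y, hy, hy', hy''⟩
    refine ⟨x + y, by rw [map_add, hx, hy, add_zero], fun m => ?_, fun v => ?_⟩
    · rw [add_lie, hx', hy', add_zero]
    · rw [add_lie, hx'', hy'', LinearMap.add_apply]
  smul_mem' := by
    rintro c T ⟨x, hx, hx', hx''⟩
    refine ⟨c • x, by rw [map_smul, hx, smul_zero], fun m => ?_, fun v => ?_⟩
    · rw [smul_lie, hx', smul_zero]
    · rw [smul_lie, hx'', LinearMap.smul_apply]

theorem dat [CharZero k] (hχ : ∀ x y : h, χ ⁅x, y⁆ = 0) (hB : Orth B χ n) (hV : Irr V) :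
    Dat (id B : V.V →ₗ[k] V.V →ₗ[k] k) (LL V χ n) (AA V M χ) where
  symm := hB.symm
  nondeg := hB.nondeg
  skew := by
    rintro T ⟨x, hx⟩ v w
    have h1 : (id B : V.V →ₗ[k] V.V →ₗ[k] k) ⁅x, v⁆ w +
        (id B : V.V →ₗ[k] V.V →ₗ[k] k) v ⁅x, w⁆ =
        -(n * χ x) * (id B : V.V →ₗ[k] V.V →ₗ[k] k) v w := hB.inv x v w
    rw [hx, hx] at h1
    simp only [map_sub, map_smul, LinearMap.sub_apply, LinearMap.smul_apply, smul_eq_mul] at h1
    have h2 : (2 : k) ≠ 0 := two_ne_zero
    linear_combination h1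
  brL := by
    rintro T ⟨x, hx⟩ T' ⟨y, hy⟩
    refine ⟨⁅x, y⁆, fun v => ?_⟩
    rw [lie_lie, hy v, hx v, lie_sub, lie_sub, lie_smul, lie_smul, hx (T' v), hy (T v), hx v,
      hy v, hχ, LinearMap.sub_apply, Module.End.mul_apply, Module.End.mul_apply]
    module
  brA := by
    rintro T ⟨x, hx⟩ T' ⟨y, hy, hy', hy''⟩
    refine ⟨⁅x, y⁆, hχ x y, fun m => ?_, fun v => ?_⟩
    · rw [lie_lie, hy', hy', lie_zero, sub_zero]
    · rw [lie_lie, hy'' v, hy'' ⁅x, v⁆, hx v, hx (T' v), map_sub, map_smul,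
        LinearMap.sub_apply, Module.End.mul_apply, Module.End.mul_apply]
      module
  le := by
    rintro T ⟨x, hx, _, hx'⟩
    refine ⟨x, fun v => ?_⟩
    rw [hx', hx]
    simp
  irr := by
    intro U hU
    refine hV U fun x u hu => ?_
    have h1 : op V x + (n * χ x / 2) • (1 : Module.End k V.V) ∈ LL V χ n := by
      refine ⟨x, fun v => ?_⟩
      rw [LinearMap.add_apply, LinearMap.smul_apply, Module.End.one_apply, add_sub_cancel_right]
      rfl
    have h2 := hU _ h1 u hu
    rw [LinearMap.add_apply, LinearMap.smul_apply, Module.End.one_apply] at h2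
    have h3 := U.sub_mem h2 (U.smul_mem (n * χ x / 2) hu)
    rw [add_sub_cancel_right] at h3
    exact h3

/-- the elementary skew operators come from elements which act as zero on `M` -/
theorem exists_S [IsAlgClosed k] [CharZero k] (hχ : ∀ x y : h, χ ⁅x, y⁆ = 0) (hB : Orth B χ n)
    (hV : Irr V) {x : h} (hx : Special V M χ x) (a b : V.V) :
    ∃ z : h, χ z = 0 ∧ M.Kill z ∧ ∀ v, ⁅z, v⁆ = S (id B : V.V →ₗ[k] V.V →ₗ[k] k) a b v := by
  have hN : op V x ∈ AA V M χ := ⟨x, hx.chi, hx.kill, fun v => rfl⟩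
  have h2 : op V x * op V x ≠ 0 := by
    intro h0
    obtain ⟨v, hv⟩ := hx.sq
    exact hv (congrArg (fun T : Module.End k V.V => T v) h0)
  exact (dat hχ hB hV).all_of_rank hN hx.rank h2 a b

/-- **The Galois Lie algebra is large.** Every skew operator on `V` comes from an element which acts
as zero on `M` and on the Tate module. -/
theorem exists_skew [IsAlgClosed k] [CharZero k] (hχ : ∀ x y : h, χ ⁅x, y⁆ = 0)
    (hB : Orth B χ n) (hV : Irr V) {x : h} (hx : Special V M χ x) (T : V.V →ₗ[k] V.V)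
    (hT : ∀ v w, B.val (T v) w + B.val v (T w) = 0) :
    ∃ z : h, χ z = 0 ∧ M.Kill z ∧ ∀ v, ⁅z, v⁆ = T v := by
  have hD := dat (M := M) hχ hB hV
  have hS : ∀ a b, S (id B : V.V →ₗ[k] V.V →ₗ[k] k) a b ∈ AA V M χ := exists_S hχ hB hV hx
  obtain ⟨q, hq1, hq2⟩ := exists_orth (id B : V.V →ₗ[k] V.V →ₗ[k] k) hD.symm hD.nondeg
  set Bl : V.V →ₗ[k] V.V →ₗ[k] k := id B with hBl
  have hT' : ∀ v w, Bl (T v) w = -Bl v (T w) := fun v w => eq_neg_of_add_eq_zero_left (hT v w)
  -- coordinates in the orthogonal basis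
  have hco : ∀ v, v = ∑ i, (Bl (q i) v / Bl (q i) (q i)) • q i := by
    intro v
    conv_lhs => rw [← q.sum_repr v]
    refine Finset.sum_congr rfl fun i _ => ?_
    congr 1
    rw [eq_div_iff (hq2 i)]
    conv_rhs => rw [← q.sum_repr v, map_sum]
    rw [Finset.sum_eq_single i]
    · rw [map_smul, smul_eq_mul]
    · intro j _ hj
      rw [map_smul, hq1 i j hj.symm, smul_zero]
    · intro hi
      exact absurd (Finset.mem_univ i) hi
  have key : (2 : k) • T = ∑ i, (Bl (q i) (q i))⁻¹ • S Bl (q i) (T (q i)) := by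
    refine LinearMap.ext fun v => ?_
    rw [LinearMap.smul_apply, LinearMap.sum_apply, two_smul]
    simp only [LinearMap.smul_apply, S_apply, smul_sub]
    rw [Finset.sum_sub_distrib]
    have h1 : T v = ∑ i, (Bl (q i) (q i))⁻¹ • Bl (q i) v • T (q i) := by
      conv_lhs => rw [hco v, map_sum]
      refine Finset.sum_congr rfl fun i _ => ?_
      rw [map_smul, smul_smul, div_eq_inv_mul]
    have h2 : -T v = ∑ i, (Bl (q i) (q i))⁻¹ • Bl (T (q i)) v • q i := by
      conv_lhs => rw [hco (T v), ← Finset.sum_neg_distrib]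
      refine Finset.sum_congr rfl fun i _ => ?_
      rw [smul_smul, hT', div_eq_inv_mul, mul_neg, neg_smul]
    rw [← h1, ← h2, sub_neg_eq_add]
  have h3 : T ∈ AA V M χ := by
    have h4 : (2 : k) • T ∈ AA V M χ := by
      rw [key]
      exact Submodule.sum_mem _ fun i _ => Submodule.smul_mem _ _ (hS _ _)
    have h5 := (AA V M χ).smul_mem (2 : k)⁻¹ h4
    rwa [smul_smul, inv_mul_cancel₀ (two_ne_zero' k), one_smul] at h5
  exact h3

theorem mat_ap {r : ℕ} {σ : Fin r → Fin r} (hσ : Pairs σ) (a : M.V) (v : Fin r → V.V) :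
    (mat B hσ a).ap v = pm (id B : V.V →ₗ[k] V.V →ₗ[k] k) hσ v • a := rfl

/-- **Tate classes on the products.** -/
theorem tate_mem [IsAlgClosed k] [CharZero k] (hχ : ∀ x y : h, χ ⁅x, y⁆ = 0)
    (hB : Orth B χ n) (hV : Irr V) {x : h} (hx : Special V M χ x) {r : ℕ}
    (hr : r < finrank k V.V) (j : ℤ) (f : Cls V M r) (hf : f.TateAt χ n j) :
    f ∈ prods M B χ n r j := by
  have hD := dat (M := M) hχ hB hV
  obtain ⟨J, _, σ, hσ, h1, h2⟩ := fft_val (M := M.V) (r := r)
    (id B : V.V →ₗ[k] V.V →ₗ[k] k) hD.symm hD.nondeg hr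
  obtain ⟨m, hm⟩ := h1 (id f) (by
    intro a b v
    obtain ⟨z, hz1, hz2, hz3⟩ := exists_S hχ hB hV hx a b
    have h3 := hf z v
    simp only [hz3] at h3
    rw [hz2, hz1, mul_zero, zero_smul, add_zero] at h3
    exact h3)
  have hm' : f = ∑ i, mat B (hσ i) (m i) := hm
  have hap : ∀ v, f.ap v = ∑ i, pm (id B : V.V →ₗ[k] V.V →ₗ[k] k) (hσ i) v • m i := by
    intro v
    have h3 := congrArg (fun g : MultilinearMap k (fun _ : Fin r => V.V) M.V => g v) hm
    refine h3.trans ?_
    simp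
  have hTate : ∀ i, One.TateAt χ (j - n * pairs (σ i)) (m i) := by
    intro i y
    rw [← sub_eq_zero]
    refine h2 (fun i => ⁅y, m i⁆ - (-(((j - n * pairs (σ i) : ℤ) : k) * χ y)) • m i) ?_ i
    intro v
    have h3 := hf y v
    simp only [hap] at h3
    rw [Finset.sum_comm] at h3
    have h4 : ∀ i, ∑ l, pm (id B : V.V →ₗ[k] V.V →ₗ[k] k) (hσ i)
        (Function.update v l ⁅y, v l⁆) • m i =
        (pairs (σ i) * -(n * χ y) * pm (id B : V.V →ₗ[k] V.V →ₗ[k] k) (hσ i) v) • m i := by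
      intro i
      rw [← Finset.sum_smul]
      congr 1
      exact pm_lie (id B : V.V →ₗ[k] V.V →ₗ[k] k) (hσ i) (fun w => ⁅y, w⁆) (-(n * χ y))
        (fun v w => hB.inv y v w) v
    simp only [h4] at h3
    rw [lie_sum, Finset.smul_sum, ← Finset.sum_add_distrib, ← sub_eq_zero,
      ← Finset.sum_sub_distrib] at h3
    rw [← neg_eq_zero, ← Finset.sum_neg_distrib, ← h3]
    refine Finset.sum_congr rfl fun i _ => ?_
    have h5 : (r : k) = 2 * pairs (σ i) := by
      have h6 := (hσ i).card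
      conv_lhs => rw [h6]
      rw [Nat.cast_mul, Nat.cast_ofNat]
      rfl
    rw [lie_smul, h5]
    push_cast
    module
  rw [hm']
  exact Submodule.sum_mem _ fun i _ => Submodule.subset_span ⟨σ i, hσ i, m i, hTate i, rfl⟩

/-- **The Tate conjecture for the products.** -/
theorem tate_iff [IsAlgClosed k] [CharZero k] (hχ : ∀ x y : h, χ ⁅x, y⁆ = 0)
    (hB : Orth B χ n) (hV : Irr V) {x : h} (hx : Special V M χ x) (C : Cyc M B n) :
    (∀ r < finrank k V.V, C.TatePow χ r) ↔ C.Tate χ := by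
  constructor
  · intro hC j a ha
    have hpos : 0 < finrank k V.V := by
      by_contra h0
      have h1 : finrank k V.V = 0 := by omega
      have h2 := LinearMap.finrank_range_le (op V x)
      rw [hx.rank, h1] at h2
      omega
    let f : Cls V M 0 := MultilinearMap.constOfIsEmpty k (fun _ : Fin 0 => V.V) a
    have hf : f.TateAt χ n j := by
      intro y v
      change ∑ i : Fin 0, a = ⁅y, a⁆ + ((j - n * (0 : ℕ)) * χ y) • a
      rw [Finset.univ_eq_empty, Finset.sum_empty, ha y]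
      push_cast
      module
    exact C.zero j f (hC 0 hpos j f hf)
  · intro hC r hr j f hf
    refine Submodule.span_le.2 ?_ (tate_mem hχ hB hV hx hr j f hf)
    rintro _ ⟨σ, hσ, a, ha, rfl⟩
    have h1 := C.mat_mem r σ hσ _ a (hC _ a ha)
    rwa [sub_add_cancel] at h1

end proofs

end Pool.Agent.TH164.One
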