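import Mathlib

/-!
# Irreducible Lie algebras of skew operators which contain an element of rank two
-/

set_option autoImplicit false

open Module Finset

namespace Pool.Agent.TH164.One

section ops

variable {k : Type*} [Field k] {V : Type*} [AddCommGroup V] [Module k V]
variable (B : V →ₗ[k] V →ₗ[k] k)

/-- The endomorphism `v ↦ B(a, v) b - B(b, v) a`. -/
def S (a b : V) : Module.End k V := (B a).smulRight b - (B b).smulRight a

theorem S_apply (a b v : V) : S B a b v = B a v • b - B b v • a := rfl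

theorem S_swap (a b : V) : S B b a = -S B a b := by
  unfold S
  rw [neg_sub]

theorem S_self (a : V) : S B a a = 0 := sub_self _

theorem S_add_left (a a' b : V) : S B (a + a') b = S B a b + S B a' b := by
  ext v
  simp only [S_apply, LinearMap.add_apply, map_add, smul_add, add_smul]
  abel

theorem S_add_right (a b b' : V) : S B a (b + b') = S B a b + S B a b' := by
  ext v
  simp only [S_apply, LinearMap.add_apply, map_add, smul_add, add_smul]
  abel

theorem S_smul_left (c : k) (a b : V) : S B (c • a) b = c • S B a b := by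
  ext v
  simp only [S_apply, LinearMap.smul_apply, map_smul, smul_eq_mul, smul_sub, smul_smul]
  rw [mul_comm (B b v) c]

theorem S_smul_right (c : k) (a b : V) : S B a (c • b) = c • S B a b := by
  ext v
  simp only [S_apply, LinearMap.smul_apply, map_smul, smul_eq_mul, smul_sub, smul_smul]
  rw [mul_comm (B a v) c]

theorem S_sub_left (a a' b : V) : S B (a - a') b = S B a b - S B a' b := by
  rw [sub_eq_add_neg, ← neg_one_smul k a', S_add_left, S_smul_left, neg_one_smul, ← sub_eq_add_neg]

theorem S_sub_right (a b b' : V) : S B a (b - b') = S B a b - S B a b' := by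
  rw [sub_eq_add_neg, ← neg_one_smul k b', S_add_right, S_smul_right, neg_one_smul,
    ← sub_eq_add_neg]

theorem S_zero_left (b : V) : S B 0 b = 0 := by
  have h := S_smul_left B 0 0 b
  rwa [zero_smul, zero_smul] at h

theorem S_zero_right (b : V) : S B b 0 = 0 := by
  have h := S_smul_right B 0 b 0
  rwa [zero_smul, zero_smul] at h

/-- A Lie algebra `L` of skew operators which acts irreducibly, and a space `𝔞` of elements of `L`
which is stable under brackets with elements of `L`. -/
structure Dat (L 𝔞 : Submodule k (Module.End k V)) : Prop where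
  symm : ∀ v w, B v w = B w v
  nondeg : ∀ v, (∀ w, B v w = 0) → v = 0
  skew : ∀ x ∈ L, ∀ v w, B (x v) w + B v (x w) = 0
  brL : ∀ x ∈ L, ∀ y ∈ L, x * y - y * x ∈ L
  brA : ∀ x ∈ L, ∀ y ∈ 𝔞, x * y - y * x ∈ 𝔞
  le : 𝔞 ≤ L
  irr : ∀ U : Submodule k V, (∀ x ∈ L, ∀ u ∈ U, x u ∈ U) → U = ⊥ ∨ U = ⊤

variable {B} {L 𝔞 : Submodule k (Module.End k V)}

theorem Dat.skew' (hD : Dat B L 𝔞) {x : Module.End k V} (hx : x ∈ L) (v w : V) :
    B v (x w) = -B (x v) w :=
  eq_neg_of_add_eq_zero_right (hD.skew x hx v w)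

theorem Dat.brk (hD : Dat B L 𝔞) {x : Module.End k V} (hx : x ∈ L) (a b : V) :
    x * S B a b - S B a b * x = S B (x a) b + S B a (x b) := by
  ext v
  simp only [LinearMap.sub_apply, Module.End.mul_apply, S_apply, LinearMap.add_apply, map_sub,
    map_smul, hD.skew' hx]
  simp only [neg_smul]
  abel

theorem Dat.ad_mem (hD : Dat B L 𝔞) {x : Module.End k V} (hx : x ∈ L) {a b : V}
    (h : S B a b ∈ 𝔞) : S B (x a) b + S B a (x b) ∈ 𝔞 := by
  rw [← hD.brk hx]
  exact hD.brA x hx _ h

theorem Dat.pow_skew (hD : Dat B L 𝔞) {x : Module.End k V} (hx : x ∈ L) (n : ℕ) :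
    ∀ v w, B ((x ^ n) v) w = (-1) ^ n * B v ((x ^ n) w) := by
  induction n with
  | zero => intro v w; simp
  | succ n ih =>
    intro v w
    have h1 : (x ^ (n + 1)) v = (x ^ n) (x v) := by rw [pow_succ, Module.End.mul_apply]
    have h2 : (x ^ (n + 1)) w = x ((x ^ n) w) := by rw [pow_succ', Module.End.mul_apply]
    rw [h1, h2, ih, hD.skew' hx, pow_succ]
    ring

/-! ### Powers of single elements span -/

/-- the coefficients of `(x + t y) ^ n e` -/
def cc (x y : Module.End k V) (e : V) : ℕ → ℕ → V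
  | 0, 0 => e
  | 0, _ + 1 => 0
  | n + 1, 0 => x (cc x y e n 0)
  | n + 1, i + 1 => x (cc x y e n (i + 1)) + y (cc x y e n i)

theorem cc_zero (x y : Module.End k V) (e : V) (n : ℕ) : cc x y e n 0 = (x ^ n) e := by
  induction n with
  | zero => simp [cc]
  | succ n ih => rw [cc, ih, pow_succ', Module.End.mul_apply]

theorem cc_big (x y : Module.End k V) (e : V) (n : ℕ) : ∀ i, n < i → cc x y e n i = 0 := by
  induction n with
  | zero =>
    intro i hi
    obtain ⟨j, rfl⟩ := Nat.exists_eq_succ_of_ne_zero (Nat.pos_iff_ne_zero.1 hi)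
    simp [cc]
  | succ n ih =>
    intro i hi
    obtain ⟨j, rfl⟩ := Nat.exists_eq_succ_of_ne_zero (by omega : i ≠ 0)
    rw [Nat.succ_eq_add_one, cc, ih _ (by omega), ih _ (by omega), map_zero, map_zero, add_zero]

theorem pow_expand (x y : Module.End k V) (e : V) (t : k) (n : ℕ) :
    ((x + t • y) ^ n) e = ∑ i ∈ range (n + 1), t ^ i • cc x y e n i := by
  induction n with
  | zero => simp [cc]
  | succ n ih =>
    rw [pow_succ', Module.End.mul_apply, ih, map_sum,
      Finset.sum_range_succ' (fun i => t ^ i • cc x y e (n + 1) i)]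
    have h1 : ∑ i ∈ range (n + 1), t ^ (i + 1) • cc x y e (n + 1) (i + 1) =
        ∑ i ∈ range (n + 1), t ^ (i + 1) • x (cc x y e n (i + 1)) +
          ∑ i ∈ range (n + 1), t ^ (i + 1) • y (cc x y e n i) := by
      rw [← Finset.sum_add_distrib]
      refine Finset.sum_congr rfl fun i _ => ?_
      rw [cc, smul_add]
    have h2 : ∑ i ∈ range (n + 1), t ^ (i + 1) • x (cc x y e n (i + 1)) +
        t ^ 0 • x (cc x y e n 0) = ∑ i ∈ range (n + 1), t ^ i • x (cc x y e n i) := by
      rw [← Finset.sum_range_succ' (fun i => t ^ i • x (cc x y e n i)), Finset.sum_range_succ,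
        cc_big x y e n (n + 1) (Nat.lt_succ_self n), map_zero, smul_zero, add_zero]
    rw [h1, cc]
    have h3 : ∀ i ∈ range (n + 1), (x + t • y) (t ^ i • cc x y e n i) =
        t ^ i • x (cc x y e n i) + t ^ (i + 1) • y (cc x y e n i) := by
      intro i _
      rw [LinearMap.add_apply, map_smul, LinearMap.smul_apply, map_smul, smul_smul, pow_succ']
    rw [Finset.sum_congr rfl h3, Finset.sum_add_distrib, ← h2]
    abel

theorem coeff_mem [Infinite k] (W : Submodule k V) (N : ℕ) (c : ℕ → V)
    (h : ∀ t : k, ∑ i ∈ range N, t ^ i • c i ∈ W) (i : ℕ) (hi : i < N) : c i ∈ W := by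
  by_contra hcon
  obtain ⟨l, hl1, hl2⟩ := Submodule.exists_le_ker_of_notMem hcon
  apply hl1
  let p : Polynomial k := ∑ j ∈ range N, Polynomial.monomial j (l (c j))
  have hp : p = 0 := by
    apply Polynomial.funext
    intro t
    rw [Polynomial.eval_zero, Polynomial.eval_finsetSum]
    have h1 := hl2 (h t)
    rw [LinearMap.mem_ker, map_sum] at h1
    rw [← h1]
    refine Finset.sum_congr rfl fun j _ => ?_
    rw [Polynomial.eval_monomial, map_smul, smul_eq_mul, mul_comm]
  have h2 : p.coeff i = l (c i) := by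
    rw [Polynomial.finsetSum_coeff, Finset.sum_eq_single i]
    · rw [Polynomial.coeff_monomial, if_pos rfl]
    · intro j _ hj
      rw [Polynomial.coeff_monomial, if_neg hj]
    · intro h3
      exact absurd (Finset.mem_range.2 hi) h3
  rw [← h2, hp, Polynomial.coeff_zero]

/-- the span of the powers of length at most `n` -/
def Wd (L : Submodule k (Module.End k V)) (e : V) (n : ℕ) : Submodule k V :=
  Submodule.span k {v | ∃ x ∈ L, ∃ m ≤ n, v = (x ^ m) e}

theorem Wd_mono {L : Submodule k (Module.End k V)} {e : V} {m n : ℕ} (h : m ≤ n) :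
    Wd L e m ≤ Wd L e n := by
  refine Submodule.span_mono ?_
  rintro v ⟨x, hx, i, hi, rfl⟩
  exact ⟨x, hx, i, hi.trans h, rfl⟩

theorem pow_mem_Wd {L : Submodule k (Module.End k V)} {e : V} {x : Module.End k V} (hx : x ∈ L)
    (n : ℕ) : (x ^ n) e ∈ Wd L e n :=
  Submodule.subset_span ⟨x, hx, n, le_rfl, rfl⟩

theorem step [CharZero k] {L : Submodule k (Module.End k V)}
    (hbr : ∀ x ∈ L, ∀ y ∈ L, x * y - y * x ∈ L) (e : V) (n : ℕ) :
    ∀ y ∈ L, ∀ w ∈ Wd L e n, y w ∈ Wd L e (n + 1) := by
  induction n using Nat.strong_induction_on with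
  | _ n IH =>
    intro y hy w hw
    -- it is enough to treat `y x ^ n e`
    suffices H : ∀ x ∈ L, y ((x ^ n) e) ∈ Wd L e (n + 1) by
      induction hw using Submodule.span_induction with
      | mem w hw =>
        obtain ⟨x, hx, m, hm, rfl⟩ := hw
        rcases hm.lt_or_eq with h1 | h1
        · exact Wd_mono (by omega) (IH m h1 y hy _ (pow_mem_Wd hx m))
        · rw [h1]
          exact H x hx
      | zero => rw [map_zero]; exact Submodule.zero_mem _
      | add a b _ _ ha hb => rw [map_add]; exact Submodule.add_mem _ ha hb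
      | smul c a _ ha => rw [map_smul]; exact Submodule.smul_mem _ c ha
    intro x hx
    have h1 : ∀ m ≤ n, cc x y e (m + 1) 1 - ((m + 1 : ℕ) : k) • y ((x ^ m) e) ∈ Wd L e m := by
      intro m
      induction m with
      | zero =>
        intro _
        have h2 : cc x y e (0 + 1) 1 - ((0 + 1 : ℕ) : k) • y ((x ^ 0) e) = 0 := by
          simp [cc]
        rw [h2]
        exact Submodule.zero_mem _
      | succ m ihm =>
        intro hm
        have h2 := IH m (by omega) x hx _ (ihm (by omega))
        have h3 := IH m (by omega) _ (hbr x hx y hy) _ (pow_mem_Wd hx m)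
        have h4 : cc x y e (m + 1 + 1) 1 - ((m + 1 + 1 : ℕ) : k) • y ((x ^ (m + 1)) e) =
            x (cc x y e (m + 1) 1 - ((m + 1 : ℕ) : k) • y ((x ^ m) e)) +
              ((m + 1 : ℕ) : k) • (x * y - y * x) ((x ^ m) e) := by
          rw [cc, cc_zero, map_sub, map_smul, LinearMap.sub_apply, Module.End.mul_apply,
            Module.End.mul_apply, pow_succ', Module.End.mul_apply]
          push_cast
          module
        rw [h4]
        exact Submodule.add_mem _ h2 (Submodule.smul_mem _ _ h3)
    have h2 : cc x y e (n + 1) 1 ∈ Wd L e (n + 1) := by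
      refine coeff_mem _ (n + 1 + 1) (cc x y e (n + 1)) (fun t => ?_) 1 (by omega)
      rw [← pow_expand]
      exact pow_mem_Wd (L.add_mem hx (L.smul_mem t hy)) _
    have h3 := Submodule.sub_mem _ h2 (Wd_mono (Nat.le_succ n) (h1 n le_rfl))
    rw [sub_sub_cancel] at h3
    have h4 : ((n + 1 : ℕ) : k) ≠ 0 := Nat.cast_ne_zero.2 (Nat.succ_ne_zero n)
    have h5 := Submodule.smul_mem _ (((n + 1 : ℕ) : k)⁻¹) h3
    rwa [smul_smul, inv_mul_cancel₀ h4, one_smul] at h5

theorem Dat.exists_pow [CharZero k] (hD : Dat B L 𝔞) {e : V} (he : e ≠ 0) :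
    ∃ x ∈ L, ∃ n, B e ((x ^ n) e) ≠ 0 := by
  by_contra hcon
  push Not at hcon
  let U : Submodule k V := Submodule.span k {v | ∃ x ∈ L, ∃ m, v = (x ^ m) e}
  have hU : ∀ n, Wd L e n ≤ U := by
    intro n
    refine Submodule.span_mono ?_
    rintro v ⟨x, hx, i, _, rfl⟩
    exact ⟨x, hx, i, rfl⟩
  have h1 : ∀ x ∈ L, ∀ u ∈ U, x u ∈ U := by
    intro x hx u hu
    induction hu using Submodule.span_induction with
    | mem w hw =>
      obtain ⟨y, hy, m, rfl⟩ := hw
      exact hU (m + 1) (step hD.brL e m x hx _ (pow_mem_Wd hy m))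
    | zero => rw [map_zero]; exact Submodule.zero_mem _
    | add a b _ _ ha hb => rw [map_add]; exact Submodule.add_mem _ ha hb
    | smul c a _ ha => rw [map_smul]; exact Submodule.smul_mem _ c ha
  have he' : e ∈ U := Submodule.subset_span ⟨0, L.zero_mem, 0, by simp⟩
  rcases hD.irr U h1 with h2 | h2
  · rw [h2] at he'
    exact he ((Submodule.mem_bot k).1 he')
  · apply he
    apply hD.nondeg
    intro w
    have hw : w ∈ U := by rw [h2]; exact Submodule.mem_top
    induction hw using Submodule.span_induction with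
    | mem w hw =>
      obtain ⟨y, hy, m, rfl⟩ := hw
      exact hcon y hy m
    | zero => rw [map_zero]
    | add a b _ _ ha hb => rw [map_add, ha, hb, add_zero]
    | smul c a _ ha => rw [map_smul, ha, smul_zero]

/-! ### Elements of rank two with one isotropic direction -/

/-- the iterated brackets -/
theorem Dat.ad_pow (hD : Dat B L 𝔞) {x : Module.End k V} (hx : x ∈ L) {a b : V}
    (h : S B a b ∈ 𝔞) (r : ℕ) :
    ∑ ij ∈ antidiagonal r, r.choose ij.1 • S B ((x ^ ij.1) a) ((x ^ ij.2) b) ∈ 𝔞 := by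
  induction r with
  | zero => simpa using h
  | succ r ih =>
    have h1 := hD.brA x hx _ ih
    rw [Finset.mul_sum, Finset.sum_mul, ← Finset.sum_sub_distrib] at h1
    have h2 : ∀ ij ∈ antidiagonal r, x * (r.choose ij.1 • S B ((x ^ ij.1) a) ((x ^ ij.2) b)) -
        r.choose ij.1 • S B ((x ^ ij.1) a) ((x ^ ij.2) b) * x =
        r.choose ij.1 • S B ((x ^ ij.1) a) ((x ^ (ij.2 + 1)) b) +
          r.choose ij.2 • S B ((x ^ (ij.1 + 1)) a) ((x ^ ij.2) b) := by
      intro ij hij
      have h3 : r.choose ij.2 = r.choose ij.1 :=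
        Nat.choose_symm_of_eq_add (by rw [← Finset.HasAntidiagonal.mem_antidiagonal.1 hij, add_comm])
      rw [mul_smul_comm, smul_mul_assoc, ← smul_sub, hD.brk hx, smul_add, h3, pow_succ', pow_succ',
        Module.End.mul_apply, Module.End.mul_apply, add_comm]
    rw [Finset.sum_congr rfl h2, Finset.sum_add_distrib] at h1
    rw [Finset.sum_antidiagonal_choose_succ_nsmul
      (fun i j => S B ((x ^ i) a) ((x ^ j) b))]
    exact h1

/-- an element of rank two -/
structure Nil (B : V →ₗ[k] V →ₗ[k] k) (e f : V) : Prop where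
  ne : e ≠ 0
  ee : B e e = 0
  ef : B e f = 0
  ff : B f f ≠ 0

theorem Dat.self_zero [CharZero k] (hD : Dat B L 𝔞) {x : Module.End k V} (hx : x ∈ L) (e : V) :
    B e (x e) = 0 := by
  have h4 := hD.skew x hx e e
  rw [hD.symm (x e) e, ← two_mul] at h4
  exact (mul_eq_zero.1 h4).resolve_left two_ne_zero

theorem Dat.exe [CharZero k] (hD : Dat B L 𝔞) {e f : V} (hN : Nil B e f) (h : S B e f ∈ 𝔞)
    {x : Module.End k V} (hx : x ∈ L) : S B e (x e) ∈ 𝔞 := by
  have hNL : S B e f ∈ L := hD.le h
  have hfe : B f e = 0 := by rw [hD.symm, hN.ef]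
  have h1 := hD.ad_mem hx h
  have h2 := hD.brA _ hNL _ h1
  have h3 : S B e f * (S B (x e) f + S B e (x f)) - (S B (x e) f + S B e (x f)) * S B e f =
      (S B (S B e f (x e)) f + S B (x e) (S B e f f)) +
        (S B (S B e f e) (x f) + S B e (S B e f (x f))) := by
    rw [← hD.brk hNL, ← hD.brk hNL]
    noncomm_ring
  have h4 : S B e f e = 0 := by rw [S_apply, hN.ee, hfe, zero_smul, zero_smul, sub_zero]
  have h5 : S B e f f = (-B f f) • e := by
    rw [S_apply, hN.ef, zero_smul, zero_sub, neg_smul]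
  have h6 : S B e f (x e) = (-B f (x e)) • e := by
    rw [S_apply, hD.self_zero hx, zero_smul, zero_sub, neg_smul]
  have h7 : S B e f (x f) = (-B f (x e)) • f := by
    rw [S_apply, hD.self_zero hx, zero_smul, sub_zero, hD.skew' hx e f, hD.symm (x e) f]
  rw [h3, h4, h5, h6, h7, S_smul_left, S_smul_right, S_smul_right, S_zero_left, S_swap B e (x e)]
    at h2
  have h8 : S B e (x e) = (B f f)⁻¹ • ((-B f (x e)) • S B e f + -B f f • -S B e (x e) +
      (0 + -B f (x e) • S B e f)) + (B f f)⁻¹ • (2 * B f (x e)) • S B e f := by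
    have h9 : (B f f)⁻¹ • ((-B f (x e)) • S B e f + -B f f • -S B e (x e) +
        (0 + -B f (x e) • S B e f)) + (B f f)⁻¹ • (2 * B f (x e)) • S B e f =
        ((B f f)⁻¹ * B f f) • S B e (x e) := by
      module
    rw [h9, inv_mul_cancel₀ hN.ff, one_smul]
  rw [h8]
  exact 𝔞.add_mem (𝔞.smul_mem _ h2) (𝔞.smul_mem _ (𝔞.smul_mem _ h))

/-- **The image of `e` is not isotropic.** -/
theorem Dat.exists_aniso [CharZero k] (hD : Dat B L 𝔞) {e f : V} (hN : Nil B e f)
    (h : S B e f ∈ 𝔞) : ∃ y ∈ 𝔞, B (y e) (y e) ≠ 0 := by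
  classical
  obtain ⟨x, hx, hn⟩ := hD.exists_pow hN.ne
  obtain ⟨n, hn1, hn2⟩ : ∃ n, B e ((x ^ n) e) ≠ 0 ∧ ∀ i < n, B e ((x ^ i) e) = 0 := by
    refine ⟨Nat.find hn, Nat.find_spec hn, fun i hi => ?_⟩
    have h1 := Nat.find_min hn hi
    push Not at h1
    exact h1
  -- the parity of `n`
  have hpar : ∀ i, B e ((x ^ i) e) = (-1) ^ i * B e ((x ^ i) e) := by
    intro i
    conv_lhs => rw [hD.symm]
    exact hD.pow_skew hx i e e
  obtain ⟨m, rfl⟩ : ∃ m, n = 2 * m := by
    rcases Nat.even_or_odd n with h1 | h1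
    · obtain ⟨m, hm⟩ := h1
      exact ⟨m, by omega⟩
    · exfalso
      have h2 := hpar n
      rw [h1.neg_one_pow, neg_one_mul, eq_neg_iff_add_eq_zero, ← two_mul] at h2
      exact hn1 ((mul_eq_zero.1 h2).resolve_left two_ne_zero)
  have hm : 1 ≤ m := by
    by_contra h1
    have h2 : m = 0 := by omega
    subst h2
    apply hn1
    simpa using hN.ee
  set al := B e ((x ^ (2 * m)) e) with hal
  obtain ⟨r, hr⟩ : ∃ r, r = 3 * m - 1 := ⟨_, rfl⟩
  let T := ∑ ij ∈ antidiagonal r, r.choose ij.1 • S B ((x ^ ij.1) e) ((x ^ ij.2) (x e))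
  have hT : T ∈ 𝔞 := hD.ad_pow hx (hD.exe hN h hx) r
  refine ⟨T, hT, ?_⟩
  let W : Submodule k V := Submodule.span k {v | ∃ p < m, v = (x ^ p) e}
  have hW : ∀ p, p < m → (x ^ p) e ∈ W := fun p hp => Submodule.subset_span ⟨p, hp, rfl⟩
  have hprod : ∀ i j, B ((x ^ i) e) ((x ^ j) e) = (-1) ^ i * B e ((x ^ (i + j)) e) := by
    intro i j
    rw [hD.pow_skew hx, pow_add, Module.End.mul_apply]
  let c : k := ((r.choose (2 * m) : ℕ) : k) * al - ((r.choose m : ℕ) : k) * al
  have hc : c ≠ 0 := by
    have h1 : r.choose (2 * m) = r.choose (m - 1) :=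
      Nat.choose_symm_of_eq_add (by omega)
    have h2 : r.choose (m - 1) < r.choose m := by
      have h3 : r.choose (m - 1 + 1) * (m - 1 + 1) = r.choose (m - 1) * (r - (m - 1)) :=
        Nat.choose_succ_right_eq r (m - 1)
      have h4 : m - 1 + 1 = m := by omega
      rw [h4] at h3
      have h5 : 0 < r.choose (m - 1) := Nat.choose_pos (by omega)
      have h6 : m < r - (m - 1) := by omega
      by_contra h7
      have h8 : r.choose m * m ≤ r.choose (m - 1) * m := Nat.mul_le_mul_right m (not_lt.1 h7)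
      have h9 : r.choose (m - 1) * m < r.choose (m - 1) * (r - (m - 1)) :=
        Nat.mul_lt_mul_of_pos_left h6 h5
      omega
    have h3 : c = (((r.choose (m - 1) : ℕ) : k) - ((r.choose m : ℕ) : k)) * al := by
      rw [sub_mul]
      change ((r.choose (2 * m) : ℕ) : k) * al - _ = _
      rw [h1]
    rw [h3]
    refine mul_ne_zero ?_ hn1
    rw [sub_ne_zero]
    intro h4
    exact absurd (Nat.cast_injective h4) h2.ne
  -- the main term of `T e`
  have hmain : T e - c • (x ^ m) e ∈ W := by
    let g : ℕ × ℕ → V := fun ij => r.choose ij.1 •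
      (B e ((x ^ ij.1) e) • (x ^ (ij.2 + 1)) e - B e ((x ^ (ij.2 + 1)) e) • (x ^ ij.1) e)
    have h1 : T e = ∑ ij ∈ antidiagonal r, g ij := by
      rw [LinearMap.sum_apply]
      refine Finset.sum_congr rfl fun ij _ => ?_
      rw [LinearMap.smul_apply, S_apply, ← Module.End.mul_apply, ← pow_succ, hD.symm _ e,
        hD.symm _ e]
    let g1 : ℕ × ℕ → V := fun ij => if ij = (2 * m, m - 1) then
      (((r.choose (2 * m) : ℕ) : k) * al) • (x ^ m) e else 0
    let g2 : ℕ × ℕ → V := fun ij => if ij = (m, 2 * m - 1) then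
      (((r.choose m : ℕ) : k) * al) • (x ^ m) e else 0
    have h2 : c • (x ^ m) e = ∑ ij ∈ antidiagonal r, (g1 ij - g2 ij) := by
      rw [Finset.sum_sub_distrib, Finset.sum_ite_eq_of_mem' _ _ _
        (Finset.HasAntidiagonal.mem_antidiagonal.2 (by simp only; omega)),
        Finset.sum_ite_eq_of_mem' _ _ _
        (Finset.HasAntidiagonal.mem_antidiagonal.2 (by simp only; omega)), ← sub_smul]
    rw [h1, h2, ← Finset.sum_sub_distrib]
    refine Submodule.sum_mem _ fun ij hij => ?_
    obtain ⟨i, j⟩ := ij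
    have hij' : i + j = r := Finset.HasAntidiagonal.mem_antidiagonal.1 hij
    by_cases hi1 : (i, j) = (2 * m, m - 1)
    · have hi2 : (i, j) ≠ (m, 2 * m - 1) := by
        rw [hi1]
        intro h3
        have := congrArg Prod.fst h3
        simp only at this
        omega
      have h3 : g (i, j) - (g1 (i, j) - g2 (i, j)) = 0 := by
        simp only [g, g1, g2]
        rw [if_pos hi1, if_neg hi2]
        have h4 : i = 2 * m := congrArg Prod.fst hi1
        have h5 : j + 1 = m := by
          have := congrArg Prod.snd hi1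
          simp only at this
          omega
        rw [h4, h5, hn2 m (by omega), zero_smul, sub_zero, sub_zero, ← hal,
          ← Nat.cast_smul_eq_nsmul k, smul_smul, sub_self]
      rw [h3]
      exact W.zero_mem
    · by_cases hi2 : (i, j) = (m, 2 * m - 1)
      · have h3 : g (i, j) - (g1 (i, j) - g2 (i, j)) = 0 := by
          simp only [g, g1, g2]
          rw [if_neg hi1, if_pos hi2]
          have h4 : i = m := congrArg Prod.fst hi2
          have h5 : j + 1 = 2 * m := by
            have := congrArg Prod.snd hi2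
            simp only at this
            omega
          rw [h4, h5, hn2 m (by omega), zero_smul, zero_sub, zero_sub, ← hal,
            ← Nat.cast_smul_eq_nsmul k, smul_neg, smul_smul, sub_self]
        rw [h3]
        exact W.zero_mem
      · simp only [g, g1, g2]
        rw [if_neg hi1, if_neg hi2, sub_zero, sub_zero, ← Nat.cast_smul_eq_nsmul k]
        refine W.smul_mem _ (W.sub_mem ?_ ?_)
        · rcases lt_trichotomy i (2 * m) with h3 | h3 | h3
          · rw [hn2 i h3, zero_smul]
            exact W.zero_mem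
          · exfalso
            apply hi1
            rw [Prod.mk.injEq]
            omega
          · exact W.smul_mem _ (hW _ (by omega))
        · rcases lt_trichotomy (j + 1) (2 * m) with h3 | h3 | h3
          · rw [hn2 (j + 1) h3, zero_smul]
            exact W.zero_mem
          · exfalso
            apply hi2
            rw [Prod.mk.injEq]
            omega
          · exact W.smul_mem _ (hW _ (by omega))
  -- products
  have hWm : ∀ w ∈ W, ∀ p ≤ m, B ((x ^ p) e) w = 0 := by
    intro w hw p hp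
    induction hw using Submodule.span_induction with
    | mem w hw =>
      obtain ⟨q, hq, rfl⟩ := hw
      rw [hprod, hn2 (p + q) (by omega), mul_zero]
    | zero => rw [map_zero]
    | add a b _ _ ha hb => rw [map_add, ha, hb, add_zero]
    | smul c a _ ha => rw [map_smul, ha, smul_zero]
  have hWW : ∀ w ∈ W, ∀ w' ∈ W, B w w' = 0 := by
    intro w hw w' hw'
    induction hw using Submodule.span_induction with
    | mem w hw =>
      obtain ⟨q, hq, rfl⟩ := hw
      exact hWm w' hw' q hq.le
    | zero => rw [map_zero, LinearMap.zero_apply]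
    | add a b _ _ ha hb => rw [map_add, LinearMap.add_apply, ha, hb, add_zero]
    | smul c a _ ha => rw [map_smul, LinearMap.smul_apply, ha, smul_zero]
  obtain ⟨w, hw, hTe⟩ : ∃ w ∈ W, T e = c • (x ^ m) e + w :=
    ⟨_, hmain, by abel⟩
  have hwm := hWm w hw m le_rfl
  have hwm' : B w ((x ^ m) e) = 0 := by rw [hD.symm, hwm]
  have h1 : B (T e) (T e) = c * (c * ((-1) ^ m * al)) := by
    have h2 : m + m = 2 * m := by omega
    rw [hTe]
    simp only [map_add, LinearMap.add_apply, map_smul, LinearMap.smul_apply, smul_eq_mul, hwm,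
      hwm', hWW w hw w hw, mul_zero, add_zero, hprod, h2, ← hal]
  rw [h1]
  exact mul_ne_zero hc (mul_ne_zero hc (mul_ne_zero (pow_ne_zero _ (neg_ne_zero.2 one_ne_zero))
    hn1))

end ops

end Pool.Agent.TH164.One
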